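import Pool.Agent.K4H90.Cub.Step
import Pool.Agent.K4H90.AllP.Bip

/-!
# The local solutions modulo `p` from a design
-/

set_option autoImplicit false
set_option linter.unusedSectionVars false

namespace Pool.Agent.K4H90.Cub

open Finset Pool.Agent.TH658.Dg Pool.Agent.TH658.Sos Pool.Agent.K4H90.AllF Pool.Agent.K4H90.AllP

section exist

variable {K : Type} [Field K]

/-- The number of the nodes with the sign `s`. -/
def ns {d : ℕ} (D : Des K d) (s : Bool) : ℕ := (univ.filter fun x => D.sg x = s).card

/-- The design for no observer. -/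
def base (K : Type) [Field K] : Des K 0 where
  N := Unit
  fN := inferInstance
  dN := inferInstance
  sg _ := false
  I := Unit
  fI := inferInstance
  J := Unit
  fJ := inferInstance
  m _ _ := none
  n _ x := (!x.1, ())
  cI := by simp
  cJ := by simp
  m_symm i x y h := by cases h
  m_sg i x y h := by cases h
  n_symm j x := by
    obtain ⟨b, u⟩ := x
    show (!(!b), ()) = (b, u)
    rw [Bool.not_not]
  n_sg j x := by
    obtain ⟨b, u⟩ := x
    show xor (!b) false = !(xor b false)
    cases b <;> rfl
  P T hT F hF hF0 := by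
    have h1 : T = ∅ := Finset.card_eq_zero.1 (Nat.le_zero.1 hT)
    subst h1
    exact Finset.sum_eq_zero fun i _ => hF0 _ fun x hx => absurd hx (Finset.notMem_empty _)
  Q T hT F hF := by
    have h1 : T = ∅ := Finset.card_eq_zero.1 (Nat.le_zero.1 hT)
    subst h1
    simp only [Finset.univ_unique, Finset.sum_singleton]
    exact hF _ _ fun x hx => absurd hx (Finset.notMem_empty _)

theorem card_step {p : ℕ} {N : Type} [Fintype N] [DecidableEq N] (sg : N → Bool) (s : Bool) :
    (univ.filter fun u : Option (ZMod (p + 1)) × N => xor (tz u.1) (sg u.2) = s).card =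
      (p + 1) * (univ.filter fun x => sg x = s).card + (univ.filter fun x => sg x = !s).card := by
  classical
  have h1 : (univ.filter fun u : Option (ZMod (p + 1)) × N => xor (tz u.1) (sg u.2) = s) =
      ((univ.image (some : ZMod (p + 1) → Option (ZMod (p + 1)))) ×ˢ
        (univ.filter fun x => sg x = s)) ∪
      (({none} : Finset (Option (ZMod (p + 1)))) ×ˢ (univ.filter fun x => sg x = !s)) := by
    ext u
    obtain ⟨c, x⟩ := u
    rcases c with _ | y
    · rw [mem_filter, mem_union, mem_product, mem_product]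
      simp only [mem_image, mem_univ, true_and, mem_filter, mem_singleton]
      have h3 : (tz (none : Option (ZMod (p + 1)))) = true := rfl
      rw [h3]
      cases sg x <;> cases s <;> simp
    · rw [mem_filter, mem_union, mem_product, mem_product]
      simp only [mem_image, mem_univ, true_and, mem_filter, mem_singleton]
      have h3 : (tz (some y)) = false := rfl
      rw [h3]
      cases sg x <;> cases s <;> simp
  rw [h1, card_union_of_disjoint, card_product, card_product,
    card_image_of_injective _ (Option.some_injective _), card_univ, ZMod.card, card_singleton,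
    one_mul]
  rw [disjoint_left]
  intro u hu hu'
  rw [mem_product, mem_image] at hu
  rw [mem_product, mem_singleton] at hu'
  obtain ⟨y, -, h3⟩ := hu.1
  rw [hu'.1] at h3
  cases h3

theorem ns_step {d p : ℕ} [Fact p.Prime] [CharP K p] (D : Des K d) (s : Bool) :
    ns (step p D) s = (p + 1) * ns D s + ns D (!s) :=
  card_step D.sg s

theorem exists_des (p : ℕ) [Fact p.Prime] [CharP K p] (l : ℕ) :
    ∃ (d : ℕ) (D : Des K d), d + 1 = 2 ^ l ∧ ns D false = ns D true + p ^ l ∧
      ns D false + ns D true = (p + 2) ^ l := by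
  induction l with
  | zero =>
    refine ⟨0, base K, rfl, ?_, ?_⟩
    · show (univ.filter fun x : Unit => (false : Bool) = false).card =
        (univ.filter fun x : Unit => (false : Bool) = true).card + 1
      simp
    · show (univ.filter fun x : Unit => (false : Bool) = false).card +
        (univ.filter fun x : Unit => (false : Bool) = true).card = 1
      simp
  | succ l ih =>
    obtain ⟨d, D, h1, h2, h3⟩ := ih
    refine ⟨2 * d + 1, step p D, ?_, ?_, ?_⟩
    · rw [pow_succ, ← h1]
      ring
    · rw [ns_step, ns_step, pow_succ]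
      show (p + 1) * ns D false + ns D true = (p + 1) * ns D true + ns D false + p ^ l * p
      rw [h2]
      ring
    · rw [ns_step, ns_step, pow_succ, ← h3]
      show (p + 1) * ns D false + ns D true + ((p + 1) * ns D true + ns D false) = _
      ring

/-- Cancellation in terms of the indices. -/
theorem Des.P' {d : ℕ} (D : Des K d) (T : Finset D.N) (hT : T.card ≤ d) (f : D.I → K)
    (h1 : ∀ i i', (∀ x ∈ T, D.m i x = D.m i' x) → f i = f i')
    (h2 : ∀ i, (∀ x ∈ T, D.m i x ≠ none) → f i = 0) : ∑ i, f i = 0 := by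
  classical
  let F : (D.N → Option D.N) → K := fun g =>
    if h : ∃ i, ∀ x ∈ T, D.m i x = g x then f h.choose else 0
  have h3 : ∀ i, F (D.m i) = f i := by
    intro i
    have h : ∃ i', ∀ x ∈ T, D.m i' x = D.m i x := ⟨i, fun _ _ => rfl⟩
    show (if h : ∃ i', ∀ x ∈ T, D.m i' x = D.m i x then f h.choose else 0) = f i
    rw [dif_pos h]
    exact h1 _ _ h.choose_spec
  rw [← Finset.sum_congr rfl fun i _ => h3 i]
  refine D.P T hT F ?_ ?_
  · intro g g' hg
    have h4 : ∀ i, (∀ x ∈ T, D.m i x = g x) ↔ (∀ x ∈ T, D.m i x = g' x) := fun i =>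
      forall₂_congr fun x hx => by rw [hg x hx]
    show (if h : ∃ i, ∀ x ∈ T, D.m i x = g x then f h.choose else 0) =
      (if h : ∃ i, ∀ x ∈ T, D.m i x = g' x then f h.choose else 0)
    by_cases h : ∃ i, ∀ x ∈ T, D.m i x = g x
    · have h' : ∃ i, ∀ x ∈ T, D.m i x = g' x := by
        obtain ⟨i, hi⟩ := h
        exact ⟨i, (h4 i).1 hi⟩
      rw [dif_pos h, dif_pos h']
      refine h1 _ _ fun x hx => ?_
      rw [h.choose_spec x hx, h'.choose_spec x hx, hg x hx]
    · rw [dif_neg h, dif_neg]
      rintro ⟨i, hi⟩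
      exact h ⟨i, (h4 i).2 hi⟩
  · intro g hg
    show (if h : ∃ i, ∀ x ∈ T, D.m i x = g x then f h.choose else 0) = 0
    by_cases h : ∃ i, ∀ x ∈ T, D.m i x = g x
    · rw [dif_pos h]
      refine h2 _ fun x hx => ?_
      rw [h.choose_spec x hx]
      exact hg x hx
    · rw [dif_neg h]

end exist

section pm

variable {F : Type} [Field F] {d : ℕ} (D : Des F d) {N M : ℕ} {A : Type} [CommRing A]
  (a : {x // D.sg x = false} ↪ Fin N) (b : {x // D.sg x = true} ↪ Fin M)

open Classical in
/-- The flow of a partial matching. -/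
noncomputable def mt (i : D.I) : Eb N M → A := fun e =>
  if ∃ x y, D.m i x.1 = some y.1 ∧ a x = e.1 ∧ b y = e.2 then 1 else 0

open Classical in
/-- The excess. -/
noncomputable def be : Qb N M → A
  | .inl i => if ∃ u, a u = i then 1 else 0
  | .inr j => - if ∃ t, b t = j then 1 else 0

open Classical in
theorem bd_mt_row (i : D.I) (r : Fin N) :
    bd sb tb (mt (A := A) D a b i) (.inl r) = - if ∃ x, a x = r ∧ D.m i x.1 ≠ none then 1 else 0 := by
  rw [bd_row]
  congr 1
  unfold mt
  by_cases h : ∃ x, a x = r ∧ D.m i x.1 ≠ none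
  · rw [if_pos h]
    obtain ⟨x, hx, hn⟩ := h
    obtain ⟨y, hy⟩ := Option.ne_none_iff_exists'.1 hn
    have hys : D.sg y = true := by
      rw [D.m_sg _ _ _ hy, x.2]
      rfl
    rw [Finset.sum_eq_single (b ⟨y, hys⟩)]
    · rw [if_pos ⟨x, ⟨y, hys⟩, hy, hx, rfl⟩]
    · intro j' _ h1
      rw [if_neg]
      rintro ⟨x', y', h2, h3, h4⟩
      have h5 : x' = x := a.injective (h3.trans hx.symm)
      rw [h5, hy] at h2
      have h6 : y' = ⟨y, hys⟩ := Subtype.ext (Option.some.inj h2).symm
      rw [h6] at h4
      exact h1 h4.symm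
    · intro h1
      exact absurd (mem_univ _) h1
  · rw [if_neg h]
    refine Finset.sum_eq_zero fun j' _ => ?_
    rw [if_neg]
    rintro ⟨x, y, h2, h3, h4⟩
    exact h ⟨x, h3, by rw [h2]; exact Option.some_ne_none _⟩

open Classical in
theorem bd_mt_col (i : D.I) (j : Fin M) :
    bd sb tb (mt (A := A) D a b i) (.inr j) = if ∃ y, b y = j ∧ D.m i y.1 ≠ none then 1 else 0 := by
  rw [bd_col]
  unfold mt
  by_cases h : ∃ y, b y = j ∧ D.m i y.1 ≠ none
  · rw [if_pos h]
    obtain ⟨y, hy, hn⟩ := h
    obtain ⟨x, hx⟩ := Option.ne_none_iff_exists'.1 hn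
    have hxs : D.sg x = false := by
      rw [D.m_sg _ _ _ hx, y.2]
      rfl
    rw [Finset.sum_eq_single (a ⟨x, hxs⟩)]
    · rw [if_pos ⟨⟨x, hxs⟩, y, D.m_symm _ _ _ hx, rfl, hy⟩]
    · intro r _ h1
      rw [if_neg]
      rintro ⟨x', y', h2, h3, h4⟩
      have h5 : y' = y := b.injective (h4.trans hy.symm)
      rw [h5] at h2
      have h7 := D.m_symm _ _ _ h2
      rw [hx] at h7
      have h6 : x' = ⟨x, hxs⟩ := Subtype.ext (Option.some.inj h7).symm
      rw [h6] at h3
      exact h1 h3.symm
    · intro h1
      exact absurd (mem_univ _) h1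
  · rw [if_neg h]
    refine Finset.sum_eq_zero fun r _ => ?_
    rw [if_neg]
    rintro ⟨x, y, h2, h3, h4⟩
    exact h ⟨y, h4, by rw [D.m_symm _ _ _ h2]; exact Option.some_ne_none _⟩

theorem sum_ex {k : Type} [Fintype k] {l : ℕ} (f : k ↪ Fin l) [∀ i, Decidable (∃ u, f u = i)] :
    ∑ i, (if ∃ u, f u = i then (1 : A) else 0) = (Fintype.card k : ℕ) := by
  classical
  rw [Finset.sum_boole]
  congr 1
  have h : (univ.filter fun i => ∃ u, f u = i) = univ.map f := by
    ext i
    simp
  rw [h, card_map, card_univ]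

theorem card_sub (s : Bool) : Fintype.card {x // D.sg x = s} = ns D s := by
  unfold ns
  rw [Fintype.card_subtype]

theorem sum_be : ∑ v, be (A := A) D a b v = (ns D false : ℕ) - (ns D true : ℕ) := by
  classical
  rw [Fintype.sum_sum_type]
  have h1 : ∑ i, be (A := A) D a b (.inl i) = (ns D false : ℕ) := by
    unfold be
    rw [sum_ex a, card_sub]
  have h2 : ∑ i, be (A := A) D a b (.inr i) = - (ns D true : ℕ) := by
    unfold be
    rw [Finset.sum_neg_distrib, sum_ex b, card_sub]
  rw [h1, h2, sub_eq_add_neg]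

end pm

section

variable {F : Type} [Field F] {d : ℕ} {N M : ℕ} {A : Type} [CommRing A]

/-- The families modulo `p`. -/
theorem hasPM (D : Des F d) {K : ℕ} (hN : ns D false + K ≤ N) (hM : ns D true + K ≤ M)
    (hM' : K < M) (hpos : 0 < ns D false)
    (τ : Qb N M → Eb N M → A)
    (hτ : ∑ v, bd sb tb (τ v) v = - ((ns D false : ℕ) - (ns D true : ℕ) : A))
    (W₀ : Finset (Cb N M)) (hW₀ : W₀.card ≤ K)
    (M₀ : XX (A := A) (sb (N := N) (M := M)) tb)
    (hM₀ : M₀ ∈ SolS sb tb τ W₀) {r : ℕ} (hr : r ≤ d) :
    HasPM F (NN sb tb) (SolS sb tb τ) Finset.card W₀ M₀ r := by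
  classical
  obtain ⟨a, ha⟩ : ∃ a : {x // D.sg x = false} ↪ Fin N, ∀ u, a u ∈ freeR W₀ := by
    have h1 : Fintype.card {x // D.sg x = false} ≤ Fintype.card (freeR W₀) := by
      rw [card_sub, Fintype.card_coe]
      have := card_freeR W₀
      omega
    obtain ⟨f⟩ := Function.Embedding.nonempty_of_card_le h1
    exact ⟨f.trans (Function.Embedding.subtype _), fun u => (f u).2⟩
  obtain ⟨b, hb⟩ : ∃ b : {x // D.sg x = true} ↪ Fin M, ∀ u, b u ∈ freeC W₀ := by
    have h1 : Fintype.card {x // D.sg x = true} ≤ Fintype.card (freeC W₀) := by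
      rw [card_sub, Fintype.card_coe]
      have := card_freeC W₀
      omega
    obtain ⟨f⟩ := Function.Embedding.nonempty_of_card_le h1
    exact ⟨f.trans (Function.Embedding.subtype _), fun u => (f u).2⟩
  obtain ⟨x₀⟩ : Nonempty {x // D.sg x = false} := by
    rw [← Fintype.card_pos_iff, card_sub]
    exact hpos
  have hβ : ∀ v, Sum.inr v ∈ W₀ → be (A := A) D a b v = 0 := by
    intro v hv
    rcases v with i | j
    · show (if ∃ u, a u = i then (1 : A) else 0) = 0
      rw [if_neg]
      rintro ⟨u, rfl⟩
      exact mem_freeR.1 (ha u) _ hv rfl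
    · show - (if ∃ u, b u = j then (1 : A) else 0) = 0
      rw [if_neg, neg_zero]
      rintro ⟨u, rfl⟩
      exact mem_freeC.1 (hb u) _ hv rfl
  obtain ⟨y, hy1, hy2⟩ := exists_glob_t τ hM₀ (conn (A := A) (by omega) (ha x₀))
    (fun v => bd sb tb (τ v) v + be D a b v) (fun v hv => by rw [hβ v hv, add_zero])
  have hy3 : ∀ v, bd sb tb y v = bd sb tb (τ v) v + be D a b v := by
    intro v
    by_cases hv : v = Sum.inl (a x₀)
    · have h1 := sum_bd sb tb y
      have h2 : ∑ v, (bd sb tb (τ v) v + be (A := A) D a b v) = 0 := by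
        rw [Finset.sum_add_distrib, hτ, sum_be]
        ring
      rw [← Finset.add_sum_erase _ _ (mem_univ v)] at h1 h2
      have h3 : ∑ w ∈ univ.erase v, bd sb tb y w =
          ∑ w ∈ univ.erase v, (bd sb tb (τ w) w + be D a b w) :=
        Finset.sum_congr rfl fun w hw => hy2 w fun h => ne_of_mem_erase hw (h.trans hv.symm)
      rw [h3] at h1
      linear_combination h1 - h2
    · exact hy2 v hv
  let z : D.I → Cb N M → Eb N M → A := fun σ c e => y e + mt D a b σ e - tw τ c e
  refine ⟨D.I, inferInstance, fun _ => 1, fun σ => mk sb tb (z σ), ?_, ?_⟩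
  · rw [Finset.sum_const, card_univ, nsmul_eq_mul, mul_one, D.cI]
  intro W hW hWr G hG1 hG2
  simp only [one_mul]
  have hWr' : W.card ≤ r := hWr
  let T1 : Finset D.N := univ.filter fun x => ∃ h : D.sg x = false, Sum.inr (Sum.inl (a ⟨x, h⟩)) ∈ W
  let T2 : Finset D.N := univ.filter fun x => ∃ h : D.sg x = true, ∃ c ∈ W,
    colOf c = some (b ⟨x, h⟩)
  have hT1 : T1.card ≤ (W.filter fun c => colOf c = none).card := by
    refine Finset.card_le_card_of_injOn (fun x => if h : D.sg x = false then
      Sum.inr (Sum.inl (a ⟨x, h⟩)) else Sum.inr (Sum.inl (a x₀))) ?_ ?_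
    · intro u hu
      obtain ⟨h1, h2⟩ := (mem_filter.1 (Finset.mem_coe.1 hu)).2
      refine Finset.mem_coe.2 ?_
      dsimp only
      rw [dif_pos h1]
      exact mem_filter.2 ⟨h2, rfl⟩
    · intro u hu u' hu' h
      obtain ⟨h1, -⟩ := (mem_filter.1 (Finset.mem_coe.1 hu)).2
      obtain ⟨h2, -⟩ := (mem_filter.1 (Finset.mem_coe.1 hu')).2
      dsimp only at h
      rw [dif_pos h1, dif_pos h2] at h
      exact congrArg Subtype.val (a.injective (Sum.inl.inj (Sum.inr.inj h)))
  have hT2 : T2.card ≤ (W.filter fun c => ¬ colOf c = none).card := by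
    have h1 : (T2.image fun x => if h : D.sg x = true then some (b ⟨x, h⟩) else none).card ≤
        ((W.filter fun c => ¬ colOf c = none).image colOf).card := by
      refine card_le_card fun x hx => ?_
      obtain ⟨j, hj, rfl⟩ := mem_image.1 hx
      obtain ⟨h1, c, hc, h⟩ := (mem_filter.1 hj).2
      rw [dif_pos h1]
      refine mem_image.2 ⟨c, mem_filter.2 ⟨hc, ?_⟩, h⟩
      rw [h]
      exact Option.some_ne_none _
    rw [card_image_of_injOn] at h1
    · exact h1.trans card_image_le
    · intro u hu u' hu' h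
      obtain ⟨h1, -⟩ := (mem_filter.1 (Finset.mem_coe.1 hu)).2
      obtain ⟨h2, -⟩ := (mem_filter.1 (Finset.mem_coe.1 hu')).2
      dsimp only at h
      rw [dif_pos h1, dif_pos h2] at h
      exact congrArg Subtype.val (b.injective (Option.some.inj h))
  have hTC : (T1 ∪ T2).card ≤ d := by
    have h1 : (W.filter fun c => colOf c = none).card +
        (W.filter fun c => ¬ colOf c = none).card = W.card :=
      Finset.card_filter_add_card_filter_not _
    have h2 := card_union_le T1 T2
    omega
  have mem1 : ∀ x : {x // D.sg x = false}, Sum.inr (Sum.inl (a x)) ∈ W → x.1 ∈ T1 ∪ T2 :=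
    fun x hx => mem_union_left _ (mem_filter.2 ⟨mem_univ _, x.2, hx⟩)
  have mem2 : ∀ x : {x // D.sg x = true}, ∀ c ∈ W, colOf c = some (b x) → x.1 ∈ T1 ∪ T2 :=
    fun x c hc hx => mem_union_right _ (mem_filter.2 ⟨mem_univ _, x.2, c, hc, hx⟩)
  refine D.P' (T1 ∪ T2) hTC (fun σ => G (mk sb tb (z σ))) ?_ ?_
  · -- dependence
    intro σ σ' h1
    have h3 : mk sb tb (z σ) = mk sb tb (z σ') + (mk sb tb (z σ) - mk sb tb (z σ')) := by
      abel
    show G (mk sb tb (z σ)) = G (mk sb tb (z σ'))
    rw [h3]
    refine hG1 _ _ ?_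
    intro c hc
    show (mk sb tb (z σ)).1 c - (mk sb tb (z σ')).1 c = 0
    rw [sub_eq_zero]
    refine mk_congr sb tb c fun e he => ?_
    show y e + mt D a b σ e - tw τ c e = y e + mt D a b σ' e - tw τ c e
    have h4 : mt (A := A) D a b σ e = mt D a b σ' e := by
      unfold mt
      have hcol : ∀ (x : {x // D.sg x = false}) (y' : {x // D.sg x = true}),
          colOf c = some (b y') → (D.m σ x.1 = some y'.1 ↔ D.m σ' x.1 = some y'.1) := by
        intro x y' h6
        have h7 := h1 _ (mem2 y' c hc h6)
        constructor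
        · intro h8
          have h9 := D.m_symm _ _ _ h8
          rw [h7] at h9
          exact D.m_symm _ _ _ h9
        · intro h8
          have h9 := D.m_symm _ _ _ h8
          rw [← h7] at h9
          exact D.m_symm _ _ _ h9
      have h5 : ∀ (x : {x // D.sg x = false}) (y' : {x // D.sg x = true}),
          (D.m σ x.1 = some y'.1 ∧ a x = e.1 ∧ b y' = e.2) ↔
          (D.m σ' x.1 = some y'.1 ∧ a x = e.1 ∧ b y' = e.2) := by
        intro x y'
        rcases c with e' | i | j'
        · have h7 : e = e' := he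
          subst h7
          constructor
          · rintro ⟨h8, h9, h10⟩
            exact ⟨(hcol x y' (by rw [h10]; rfl)).1 h8, h9, h10⟩
          · rintro ⟨h8, h9, h10⟩
            exact ⟨(hcol x y' (by rw [h10]; rfl)).2 h8, h9, h10⟩
        · rw [see_row] at he
          constructor
          · rintro ⟨h8, h9, h10⟩
            rw [h1 _ (mem1 x (by rw [h9, he]; exact hc))] at h8
            exact ⟨h8, h9, h10⟩
          · rintro ⟨h8, h9, h10⟩
            rw [← h1 _ (mem1 x (by rw [h9, he]; exact hc))] at h8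
            exact ⟨h8, h9, h10⟩
        · rw [see_col] at he
          constructor
          · rintro ⟨h8, h9, h10⟩
            exact ⟨(hcol x y' (by rw [h10, he]; rfl)).1 h8, h9, h10⟩
          · rintro ⟨h8, h9, h10⟩
            exact ⟨(hcol x y' (by rw [h10, he]; rfl)).2 h8, h9, h10⟩
      simp only [h5]
    rw [h4]
  · intro σ hσ
    have hval : ∀ c ∈ W, ∀ e, See sb tb c e → (mk sb tb (z σ)).1 c e = z σ c e := by
      intro c hc e he
      refine mk_apply sb tb c (fun v hv => ?_) e he
      subst hv
      show bd sb tb (y + mt D a b σ - τ v) v = 0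
      rw [bd_sub, bd_add, hy3]
      rcases v with i | j
      · rw [bd_mt_row]
        have h1 : (∃ u, a u = i) ↔ ∃ x, a x = i ∧ D.m σ x.1 ≠ none := by
          constructor
          · rintro ⟨u, hu⟩
            exact ⟨u, hu, hσ _ (mem1 u (by rw [hu]; exact hc))⟩
          · rintro ⟨u, hu, -⟩
            exact ⟨u, hu⟩
        have h2 : be (A := A) D a b (.inl i) = if ∃ x, a x = i ∧ D.m σ x.1 ≠ none then 1 else 0 := by
          unfold be
          simp only [h1]
        rw [h2]
        ring
      · rw [bd_mt_col]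
        have h1 : (∃ u, b u = j) ↔ ∃ x, b x = j ∧ D.m σ x.1 ≠ none := by
          constructor
          · rintro ⟨u, hu⟩
            exact ⟨u, hu, hσ _ (mem2 u _ hc (by rw [hu]; rfl))⟩
          · rintro ⟨u, hu, -⟩
            exact ⟨u, hu⟩
        have h2 : be (A := A) D a b (.inr j) =
            - if ∃ x, b x = j ∧ D.m σ x.1 ≠ none then 1 else 0 := by
          unfold be
          simp only [h1]
        rw [h2]
        ring
    refine hG2 _ ?_ ?_
    · intro c hc c' hc' e he he'
      rw [hval c hc e he, hval c' hc' e he']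
      show y e + mt D a b σ e - tw τ c e + tw τ c e = y e + mt D a b σ e - tw τ c' e + tw τ c' e
      rw [sub_add_cancel, sub_add_cancel]
    · intro c hc
      show (mk sb tb (z σ)).1 c - M₀.1 c = 0
      rw [sub_eq_zero]
      refine ext_class sb tb c fun e he => ?_
      rw [hval c (hW hc) e he]
      show y e + mt D a b σ e - tw τ c e = _
      rw [hy1 c hc e he]
      have h1 : mt (A := A) D a b σ e = 0 := by
        unfold mt
        rw [if_neg]
        rintro ⟨x, y', -, h2, h3⟩
        have h4 := mem_freeR.1 (ha x) c hc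
        have h5 := mem_freeC.1 (hb y') c hc
        rcases c with e' | i | j'
        · have h6 : e = e' := he
          subst h6
          exact h4 (by rw [h2]; rfl)
        · rw [see_row] at he
          exact h4 (by rw [h2, he]; rfl)
        · rw [see_col] at he
          exact h5 (by rw [h3, he]; rfl)
      rw [h1]
      ring

end

end Pool.Agent.K4H90.Cub
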