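import Pool.Agent.K4H90.Cub.Link
import Pool.Agent.K4H90.Cub.PmD
import Pool.Agent.K4H90.AllP.Small
import Pool.Agent.K4H90.AllF.ImEq

/-!
# The cubic graphs
-/

set_option autoImplicit false
set_option linter.unusedSectionVars false

namespace Pool.Agent.K4H90.Cub

open Finset Pool.Agent.TH658.Dg Pool.Agent.TH658.Sos Pool.Agent.K4H90.AllF Pool.Agent.K4H90.AllP

/-- The nodes. -/
abbrev Nd (N M : ℕ) : Type := Bool × (Fin (N + 1) × Fin (M + 1))

/-- The next node. -/
def nx {N M : ℕ} (v : Nd N M) : Nd N M :=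
  if v.1 = true then (v.1, (v.2.1 + 1, v.2.2)) else (v.1, (v.2.1, v.2.2 + 1))

/-- The previous node. -/
def pv {N M : ℕ} (v : Nd N M) : Nd N M :=
  if v.1 = true then (v.1, (v.2.1 - 1, v.2.2)) else (v.1, (v.2.1, v.2.2 - 1))

theorem nx_pv {N M : ℕ} (v : Nd N M) : nx (pv v) = v := by
  obtain ⟨b, i, j⟩ := v
  cases b with
  | false => exact Prod.ext rfl (Prod.ext rfl (sub_add_cancel j 1))
  | true => exact Prod.ext rfl (Prod.ext (sub_add_cancel i 1) rfl)

theorem pv_nx {N M : ℕ} (v : Nd N M) : pv (nx v) = v := by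
  obtain ⟨b, i, j⟩ := v
  cases b with
  | false => exact Prod.ext rfl (Prod.ext rfl (add_sub_cancel_right j 1))
  | true => exact Prod.ext rfl (Prod.ext (add_sub_cancel_right i 1) rfl)

/-- The classes. -/
abbrev Cc (N M s : ℕ) : Type := Nd N M × Option (Fin 3 × Fin (s + 1))

/-- The links. -/
abbrev Lc (N M s : ℕ) : Type :=
  (Nd N M × Fin 3) ⊕ ((Nd N M × Fin 3 × Fin s) ⊕ ((Fin (N + 1) × Fin (M + 1)) ⊕ Nd N M))

section ring

variable {A : Type} [CommRing A]

/-- The pairs whose second entry is a multiple of `2 ^ j`. -/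
def dv (j : ℕ) : AddSubgroup (A × A) where
  carrier := {z | ∃ y, z.2 = 2 ^ j * y}
  add_mem' := by
    rintro z z' ⟨y, hy⟩ ⟨y', hy'⟩
    exact ⟨y + y', by rw [Prod.snd_add, hy, hy']; ring⟩
  zero_mem' := ⟨0, by simp⟩
  neg_mem' := by
    rintro z ⟨y, hy⟩
    exact ⟨-y, by rw [Prod.snd_neg, hy]; ring⟩

theorem mem_dv_zero (z : A × A) : z ∈ dv (A := A) 0 := ⟨z.2, by simp⟩

/-- The change of coordinates. -/
def rot (i : Fin 3) : A × A →+ A × A where
  toFun z := if i = 0 then z else if i = 1 then (z.2, -z.1 - z.2) else (-z.1 - z.2, z.1)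
  map_zero' := by
    by_cases h : i = 0
    · rw [if_pos h]
    · by_cases h' : i = 1
      · rw [if_neg h, if_pos h']
        simp
      · rw [if_neg h, if_neg h']
        simp
  map_add' z w := by
    by_cases h : i = 0
    · rw [if_pos h, if_pos h, if_pos h]
    · by_cases h' : i = 1
      · rw [if_neg h, if_pos h', if_neg h, if_pos h', if_neg h, if_pos h']
        refine Prod.ext rfl ?_
        show -(z.1 + w.1) - (z.2 + w.2) = -z.1 - z.2 + (-w.1 - w.2)
        ring
      · rw [if_neg h, if_neg h', if_neg h, if_neg h', if_neg h, if_neg h']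
        refine Prod.ext ?_ rfl
        show -(z.1 + w.1) - (z.2 + w.2) = -z.1 - z.2 + (-w.1 - w.2)
        ring

theorem rot_zero (z : A × A) : rot 0 z = z := rfl

theorem rot_one (z : A × A) : rot 1 z = (z.2, -z.1 - z.2) := rfl

theorem rot_two (z : A × A) : rot 2 z = (-z.1 - z.2, z.1) := rfl

/-- The inverse change of coordinates. -/
def rti (i : Fin 3) (z : A × A) : A × A :=
  if i = 0 then z else if i = 1 then (-z.1 - z.2, z.1) else (z.2, -z.1 - z.2)

theorem rot_rti (i : Fin 3) (z : A × A) : rot i (rti i z) = z := by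
  fin_cases i
  · rfl
  · show (z.1, -(-z.1 - z.2) - z.1) = z
    refine Prod.ext rfl ?_
    show -(-z.1 - z.2) - z.1 = z.2
    ring
  · show (-z.2 - (-z.1 - z.2), z.2) = z
    refine Prod.ext ?_ rfl
    show -z.2 - (-z.1 - z.2) = z.1
    ring

theorem rti_rot (i : Fin 3) (z : A × A) : rti i (rot i z) = z := by
  fin_cases i
  · rfl
  · show (-z.2 - (-z.1 - z.2), z.2) = z
    refine Prod.ext ?_ rfl
    show -z.2 - (-z.1 - z.2) = z.1
    ring
  · show (z.1, -(-z.1 - z.2) - z.1) = z
    refine Prod.ext rfl ?_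
    show -(-z.1 - z.2) - z.1 = z.2
    ring

/-- The step of a chain. -/
def dbl : A × A →+ A × A where
  toFun z := (z.1, 2 * z.2)
  map_zero' := by simp
  map_add' z w := Prod.ext rfl (mul_add _ _ _)

/-- The change of the sign. -/
def sgn : A × A →+ A × A where
  toFun z := (-z.1, z.2)
  map_zero' := by simp
  map_add' z w := by
    refine Prod.ext ?_ rfl
    show -(z.1 + w.1) = -z.1 + -w.1
    ring

/-- The system of the links. -/
def cs (N M s : ℕ) (A : Type) [CommRing A] : LS (Cc N M s) (Lc N M s) (A × A) where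
  Γ c := match c.2 with
    | none => dv 0
    | some x => dv (x.2 : ℕ)
  src l := match l with
    | .inl x => (x.1, none)
    | .inr (.inl x) => (x.1, some (x.2.1, x.2.2.castSucc))
    | .inr (.inr (.inl x)) => ((false, x), some (0, Fin.last s))
    | .inr (.inr (.inr x)) => (x, some (2, Fin.last s))
  tgt l := match l with
    | .inl x => (x.1, some (x.2, 0))
    | .inr (.inl x) => (x.1, some (x.2.1, x.2.2.succ))
    | .inr (.inr (.inl x)) => ((true, x), some (0, Fin.last s))
    | .inr (.inr (.inr x)) => (nx x, some (1, Fin.last s))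
  f l := match l with
    | .inl x => rot x.2
    | .inr (.inl _) => dbl
    | .inr (.inr (.inl _)) => AddMonoidHom.id _
    | .inr (.inr (.inr _)) => sgn
  hf l z hz := by
    rcases l with x | x | x | x
    · exact mem_dv_zero _
    · obtain ⟨y, hy⟩ := hz
      refine ⟨y, ?_⟩
      show 2 * z.2 = 2 ^ ((x.2.2.succ : Fin (s + 1)) : ℕ) * y
      rw [hy, Fin.val_succ, Fin.val_castSucc, pow_succ]
      ring
    · exact hz
    · obtain ⟨y, hy⟩ := hz
      exact ⟨y, hy⟩

/-- The twist. -/
def tc (N M s : ℕ) (d : A) : Lc N M s → A × A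
  | .inr (.inr (.inl x)) => if x = (0, 0) then (d, 0) else 0
  | _ => 0

theorem tc_mem (N M s : ℕ) (d : A) (l : Lc N M s) :
    tc N M s d l ∈ (cs N M s A).Γ ((cs N M s A).tgt l) := by
  rcases l with x | x | x | x
  · exact AddSubgroup.zero_mem _
  · exact AddSubgroup.zero_mem _
  · by_cases h : x = (0, 0)
    · have h1 : tc N M s d (.inr (.inr (.inl x))) = (d, 0) := if_pos h
      rw [h1]
      exact ⟨0, by simp⟩
    · have h1 : tc N M s d (.inr (.inr (.inl x))) = 0 := if_neg h
      rw [h1]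
      exact AddSubgroup.zero_mem _
  · exact AddSubgroup.zero_mem _

theorem zero_mem' (N M s : ℕ) (l : Lc N M s) :
    (0 : Lc N M s → A × A) l ∈ (cs N M s A).Γ ((cs N M s A).tgt l) := AddSubgroup.zero_mem _

/-- There is no global solution. -/
theorem no_solution {N M s : ℕ} {d : A} (hs : (2 : A) ^ s = 0) (hd : d ≠ 0) (a : Cc N M s → A × A)
    (ha : ∀ l, a ((cs N M s A).tgt l) = (cs N M s A).f l (a ((cs N M s A).src l)) + tc N M s d l) :
    False := by
  let P : Nd N M → A × A := fun v => a (v, none)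
  have h1 : ∀ v i (j : Fin (s + 1)), a (v, some (i, j)) =
      ((rot i (P v)).1, 2 ^ (j : ℕ) * (rot i (P v)).2) := by
    intro v i j
    induction j using Fin.induction with
    | zero =>
      have h2 : a (v, some (i, 0)) = rot i (P v) + 0 := ha (.inl (v, i))
      rw [h2]
      refine Prod.ext ?_ ?_
      · exact add_zero _
      · show (rot i (P v)).2 + 0 = 2 ^ 0 * _
        ring
    | succ j ih =>
      have h2 : a (v, some (i, j.succ)) = dbl (a (v, some (i, j.castSucc))) + 0 :=
        ha (.inr (.inl (v, i, j)))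
      rw [h2, ih]
      refine Prod.ext ?_ ?_
      · exact add_zero _
      · show 2 * (2 ^ ((j.castSucc : Fin (s + 1)) : ℕ) * (rot i (P v)).2) + 0 =
          2 ^ ((j.succ : Fin (s + 1)) : ℕ) * (rot i (P v)).2
        rw [Fin.val_succ, Fin.val_castSucc, pow_succ]
        ring
  have h2 : ∀ x : Fin (N + 1) × Fin (M + 1), (P (true, x)).1 = (P (false, x)).1 +
      (if x = (0, 0) then d else 0) := by
    intro x
    have h3 : a ((true, x), some (0, Fin.last s)) = a ((false, x), some (0, Fin.last s)) +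
        (if x = (0, 0) then (d, 0) else 0) := ha (.inr (.inr (.inl x)))
    rw [h1, h1] at h3
    have h4 := congrArg Prod.fst h3
    have h5 : (P (true, x)).1 = (P (false, x)).1 + (if x = (0, 0) then ((d, 0) : A × A) else 0).1 :=
      h4
    rw [h5]
    congr 1
    by_cases h6 : x = (0, 0)
    · rw [if_pos h6, if_pos h6]
    · rw [if_neg h6, if_neg h6]
      rfl
  have h3 : ∀ v, (P (nx v)).2 = (P v).1 + (P v).2 := by
    intro v
    have h4 : a (nx v, some (1, Fin.last s)) = sgn (a (v, some (2, Fin.last s))) + 0 :=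
      ha (.inr (.inr (.inr v)))
    rw [h1, h1] at h4
    have h5 := congrArg Prod.fst h4
    have h6 : (P (nx v)).2 = -(-(P v).1 - (P v).2) + 0 := h5
    rw [h6]
    ring
  have h4 : ∀ b : Bool, ∑ x : Fin (N + 1) × Fin (M + 1), (P (b, x)).1 = 0 := by
    intro b
    have h5 : ∑ x : Fin (N + 1) × Fin (M + 1), (P (nx (b, x))).2 =
        ∑ x : Fin (N + 1) × Fin (M + 1), (P (b, x)).2 := by
      cases b with
      | false =>
        refine Fintype.sum_equiv ⟨fun x => (x.1, x.2 + 1), fun x => (x.1, x.2 - 1),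
          fun x => Prod.ext rfl (add_sub_cancel_right _ _),
          fun x => Prod.ext rfl (sub_add_cancel _ _)⟩ _ _ fun x => rfl
      | true =>
        refine Fintype.sum_equiv ⟨fun x => (x.1 + 1, x.2), fun x => (x.1 - 1, x.2),
          fun x => Prod.ext (add_sub_cancel_right _ _) rfl,
          fun x => Prod.ext (sub_add_cancel _ _) rfl⟩ _ _ fun x => rfl
    rw [Finset.sum_congr rfl fun x _ => h3 (b, x), Finset.sum_add_distrib] at h5
    exact add_eq_right.1 h5
  have h5 := h4 true
  rw [Finset.sum_congr rfl fun x _ => h2 x, Finset.sum_add_distrib, h4 false, zero_add,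
    Finset.sum_ite_eq'] at h5
  simp only [mem_univ, if_true] at h5
  exact hd h5

end ring

/-! ### Partial sums around a cycle -/

theorem ps_cyc {A : Type} [CommRing A] {n : ℕ} (m : Fin (n + 1) → A) (hm : ∑ i, m i = 0)
    (j : Fin (n + 1)) : ps m j = m j + ps m (j - 1) := by
  induction j using Fin.cases with
  | zero =>
    have h : (0 : Fin (n + 1)) - 1 = Fin.last n := by
      rw [sub_eq_iff_eq_add, Fin.last_add_one]
    rw [h, ps_last, hm, ps_zero, add_zero]
  | succ j =>
    have h : j.succ - 1 = j.castSucc := by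
      rw [sub_eq_iff_eq_add, Fin.coeSucc_eq_succ]
    rw [h, ps_succ, add_comm]

section act

variable {N M s : ℕ} {A : Type} [CommRing A]

/-- The pair of a node. -/
def pn (x : Qb (N + 1) (M + 1) → Eb (N + 1) (M + 1) → A) (v : Nd N M) : A × A :=
  if v.1 = true then (x (.inr v.2.2) v.2, ps (fun i => x (.inr v.2.2) (i, v.2.2)) (v.2.1 - 1))
  else (x (.inl v.2.1) v.2, ps (fun j => x (.inl v.2.1) (v.2.1, j)) (v.2.2 - 1))

theorem pn_add (x y : Qb (N + 1) (M + 1) → Eb (N + 1) (M + 1) → A) (v : Nd N M) :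
    pn (fun q => x q + y q) v = pn x v + pn y v := by
  obtain ⟨b, i, j⟩ := v
  cases b with
  | false => exact Prod.ext rfl (ps_add _ _ _)
  | true => exact Prod.ext rfl (ps_add _ _ _)

theorem pn_nx (x : XX (A := A) (sb (N := N + 1) (M := M + 1)) tb) (v : Nd N M) :
    (pn (fun q => x.1 (.inr q)) (nx v)).2 =
      (pn (fun q => x.1 (.inr q)) v).1 + (pn (fun q => x.1 (.inr q)) v).2 := by
  obtain ⟨b, i, j⟩ := v
  cases b with
  | false =>
    have h2 := (x.2 (.inr (.inl i))).2 _ rfl
    rw [bd_row, neg_eq_zero] at h2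
    show ps (fun j => x.1 (.inr (.inl i)) (i, j)) (j + 1 - 1) =
      x.1 (.inr (.inl i)) (i, j) + ps (fun j => x.1 (.inr (.inl i)) (i, j)) (j - 1)
    rw [add_sub_cancel_right]
    exact ps_cyc _ h2 j
  | true =>
    have h2 := (x.2 (.inr (.inr j))).2 _ rfl
    rw [bd_col] at h2
    show ps (fun i => x.1 (.inr (.inr j)) (i, j)) (i + 1 - 1) =
      x.1 (.inr (.inr j)) (i, j) + ps (fun i => x.1 (.inr (.inr j)) (i, j)) (i - 1)
    rw [add_sub_cancel_right]
    exact ps_cyc _ h2 i

/-- The value at a class. -/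
def vc (x : Qb (N + 1) (M + 1) → Eb (N + 1) (M + 1) → A) (c : Cc N M s) : A × A :=
  match c.2 with
  | none => pn x c.1
  | some y => ((rot y.1 (pn x c.1)).1, 2 ^ (y.2 : ℕ) * (rot y.1 (pn x c.1)).2)

/-- The level of a class. -/
def lvc (c : Cc N M s) : Qb (N + 1) (M + 1) := if c.1.1 = true then .inr c.1.2.2 else .inl c.1.2.1

theorem pn_zero (x : Qb (N + 1) (M + 1) → Eb (N + 1) (M + 1) → A) (v : Nd N M)
    (h : x (if v.1 = true then .inr v.2.2 else .inl v.2.1) = 0) : pn x v = 0 := by
  obtain ⟨b, i, j⟩ := v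
  cases b with
  | false =>
    have h1 : x (.inl i) = 0 := h
    refine Prod.ext (congrFun h1 _) ?_
    show ps (fun j => x (.inl i) (i, j)) (j - 1) = 0
    unfold ps
    exact Finset.sum_eq_zero fun j _ => congrFun h1 _
  | true =>
    have h1 : x (.inr j) = 0 := h
    refine Prod.ext (congrFun h1 _) ?_
    show ps (fun i => x (.inr j) (i, j)) (i - 1) = 0
    unfold ps
    exact Finset.sum_eq_zero fun j _ => congrFun h1 _

/-- The action. -/
def ad (K : ℕ) (hM : K < M + 1) (hN : K < N + 1) (d : A) (hs : (2 : A) ^ s = 0) :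
    AD (cs N M s A) (tc N M s d) (sys K hM hN (τb d)) where
  ψ c x := vc (fun q => x.1 (.inr q)) c
  add c x y := by
    obtain ⟨v, o⟩ := c
    have h1 := pn_add (fun q => x.1 (.inr q)) (fun q => y.1 (.inr q)) v
    have h2 : (fun q => (x + y).1 (.inr q)) = fun q => x.1 (.inr q) + y.1 (.inr q) := rfl
    rcases o with _ | ⟨i, j⟩
    · exact h1
    · show ((rot i (pn (fun q => (x + y).1 (.inr q)) v)).1,
        2 ^ (j : ℕ) * (rot i (pn (fun q => (x + y).1 (.inr q)) v)).2) = _
      rw [h2, h1, map_add]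
      refine Prod.ext rfl ?_
      exact mul_add _ _ _
  mem c x := by
    obtain ⟨v, o⟩ := c
    rcases o with _ | ⟨i, j⟩
    · exact mem_dv_zero _
    · exact ⟨_, rfl⟩
  lv c := {.inr (lvc c)}
  size c := (Finset.card_singleton (Sum.inr (lvc c) : Cb (N + 1) (M + 1))).le
  inv c n hn := by
    have h1 : n.1 (.inr (lvc c)) = 0 := hn _ (Finset.mem_singleton_self _)
    obtain ⟨v, o⟩ := c
    have h2 := pn_zero (fun q => n.1 (.inr q)) v h1
    rcases o with _ | ⟨i, j⟩
    · exact h2
    · show ((rot i (pn (fun q => n.1 (.inr q)) v)).1,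
        2 ^ (j : ℕ) * (rot i (pn (fun q => n.1 (.inr q)) v)).2) = 0
      rw [h2, map_zero]
      refine Prod.ext rfl ?_
      exact mul_zero _
  comp l x hx := by
    rcases l with y | y | y | y
    · show ((rot y.2 (pn (fun q => x.1 (.inr q)) y.1)).1,
        2 ^ 0 * (rot y.2 (pn (fun q => x.1 (.inr q)) y.1)).2) =
        rot y.2 (pn (fun q => x.1 (.inr q)) y.1) + 0
      rw [pow_zero, one_mul, add_zero]
    · show ((rot y.2.1 (pn (fun q => x.1 (.inr q)) y.1)).1, 2 ^ ((y.2.2.succ : Fin (s + 1)) : ℕ) *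
        (rot y.2.1 (pn (fun q => x.1 (.inr q)) y.1)).2) =
        ((rot y.2.1 (pn (fun q => x.1 (.inr q)) y.1)).1, 2 * (2 ^
        ((y.2.2.castSucc : Fin (s + 1)) : ℕ) * (rot y.2.1 (pn (fun q => x.1 (.inr q)) y.1)).2)) +
        (0 : A × A)
      rw [add_zero, Fin.val_succ, Fin.val_castSucc, pow_succ]
      refine Prod.ext rfl ?_
      show 2 ^ (y.2.2 : ℕ) * 2 * (rot y.2.1 (pn (fun q => x.1 (.inr q)) y.1)).2 =
        2 * (2 ^ (y.2.2 : ℕ) * (rot y.2.1 (pn (fun q => x.1 (.inr q)) y.1)).2)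
      ring
    · obtain ⟨i, j⟩ := y
      have h1 := hx (.inr (.inl i)) (mem_union_right _ (mem_singleton_self _)) (.inr (.inr j))
        (mem_union_left _ (mem_singleton_self _)) (i, j) (see_row.2 rfl) (see_col.2 rfl)
      have h2 : x.1 (.inr (.inl i)) (i, j) + (if i = 0 ∧ (i, j) = ((0, 0) : Eb (N + 1) (M + 1))
        then d else 0) = x.1 (.inr (.inr j)) (i, j) + 0 := h1
      refine Prod.ext ?_ ?_
      · show x.1 (.inr (.inr j)) (i, j) = x.1 (.inr (.inl i)) (i, j) +
          (if (i, j) = ((0, 0) : Eb (N + 1) (M + 1)) then ((d, 0) : A × A) else 0).1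
        rw [add_zero] at h2
        rw [← h2]
        congr 1
        by_cases h3 : (i, j) = ((0, 0) : Eb (N + 1) (M + 1))
        · rw [if_pos h3, if_pos ⟨(Prod.mk.inj h3).1, h3⟩]
        · rw [if_neg h3, if_neg fun h => h3 h.2]
          rfl
      · show 2 ^ s * _ = 2 ^ s * _ +
          (if (i, j) = ((0, 0) : Eb (N + 1) (M + 1)) then ((d, 0) : A × A) else 0).2
        rw [hs, zero_mul, zero_mul, zero_add]
        by_cases h3 : (i, j) = ((0, 0) : Eb (N + 1) (M + 1))
        · rw [if_pos h3]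
        · rw [if_neg h3]
          rfl
    · refine Prod.ext ?_ ?_
      · show (pn (fun q => x.1 (.inr q)) (nx y)).2 =
          -(-(pn (fun q => x.1 (.inr q)) y).1 - (pn (fun q => x.1 (.inr q)) y).2) + 0
        rw [pn_nx]
        ring
      · show 2 ^ s * _ = 2 ^ s * _ + 0
        rw [hs, zero_mul, zero_mul, zero_add]

end act

end Pool.Agent.K4H90.Cub
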