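import Pool.Agent.K4H90.Cub.Cubic

/-!
# The degrees of the cubic graphs
-/

set_option autoImplicit false
set_option linter.unusedSectionVars false

namespace Pool.Agent.K4H90.Cub

open Finset Pool.Agent.TH658.Dg Pool.Agent.TH658.Sos Pool.Agent.K4H90.AllF Pool.Agent.K4H90.AllP

instance decLc1 (N M : ℕ) : DecidableEq ((Fin (N + 1) × Fin (M + 1)) ⊕ Nd N M) := inferInstance

instance decLc2 (N M s : ℕ) : DecidableEq ((Nd N M × Fin 3 × Fin s) ⊕
    ((Fin (N + 1) × Fin (M + 1)) ⊕ Nd N M)) := instDecidableEqSum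

instance decLc (N M s : ℕ) : DecidableEq (Lc N M s) := instDecidableEqSum

section ring

variable {A : Type} [CommRing A] [Fintype A] [DecidableEq A] {N M s : ℕ}

/-- The elements that are sent to an element. -/
def pre (x : A × A) : Finset (A × A) := univ.filter fun y => dbl y = x

theorem card_pre {h : A} (H : ∀ z : A, 2 * z = 0 → z = 0 ∨ z = h) (x : A × A) :
    (pre x).card ≤ 2 := by
  rcases (pre x).eq_empty_or_nonempty with h0 | ⟨y, hy⟩
  · rw [h0, card_empty]
    omega
  · have h1 : pre x ⊆ {y, (y.1, y.2 + h)} := by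
      intro y' hy'
      have h2 : dbl y = x := (mem_filter.1 hy).2
      have h3 : dbl y' = x := (mem_filter.1 hy').2
      have h4 : (y'.1, 2 * y'.2) = (y.1, 2 * y.2) := h3.trans h2.symm
      obtain ⟨h5, h6⟩ := Prod.mk.inj h4
      rw [mem_insert, mem_singleton]
      rcases H (y'.2 - y.2) (by rw [mul_sub, h6, sub_self]) with h7 | h7
      · left
        exact Prod.ext h5 (sub_eq_zero.1 h7)
      · right
        refine Prod.ext h5 ?_
        show y'.2 = y.2 + h
        rw [← h7]
        ring
    exact (card_le_card h1).trans (card_insert_le _ _)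

/-- The upper port. -/
def up (d : A) (v : Nd N M) (i : Fin 3) (j : Fin (s + 1)) (x : A × A) :
    (Lc N M s × Bool) × (A × A) :=
  if h : (j : ℕ) < s then ((.inr (.inl (v, i, ⟨j, h⟩)), false), x)
  else if i = 0 then (if v.1 = true then ((.inr (.inr (.inl v.2)), true),
      x - tc N M s d (.inr (.inr (.inl v.2)))) else ((.inr (.inr (.inl v.2)), false), x))
    else if i = 1 then ((.inr (.inr (.inr (pv v))), true), sgn x)
      else ((.inr (.inr (.inr v)), false), x)

/-- The lower ports. -/
def low (v : Nd N M) (i : Fin 3) (j : Fin (s + 1)) (x : A × A) :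
    Finset ((Lc N M s × Bool) × (A × A)) :=
  Fin.cases {((.inl (v, i), true), rti i x)}
    (fun j' => (pre x).image fun y => ((.inr (.inl (v, i, j')), true), y)) j

theorem card_low {h : A} (H : ∀ z : A, 2 * z = 0 → z = 0 ∨ z = h) (v : Nd N M) (i : Fin 3)
    (j : Fin (s + 1)) (x : A × A) : (low v i j x).card ≤ 2 := by
  induction j using Fin.cases with
  | zero =>
    show ({((.inl (v, i), true), rti i x)} : Finset ((Lc N M s × Bool) × (A × A))).card ≤ 2
    rw [card_singleton]
    omega
  | succ j =>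
    exact card_image_le.trans (card_pre H x)

theorem last_not_lt {s : ℕ} : ¬ ((Fin.last s : Fin (s + 1)) : ℕ) < s := by
  rw [Fin.val_last]
  exact lt_irrefl _

theorem degc {h : A} (H : ∀ z : A, 2 * z = 0 → z = 0 ∨ z = h) (d : A)
    (u : {x : Cc N M s × (A × A) // x.2 ∈ (cs N M s A).Γ x.1}) :
    ∃ t : Finset ((Lc N M s × Bool) × (A × A)),
      t.card ≤ 3 ∧ ∀ w, Inc (cs N M s A) (tc N M s d) u.1 w → w ∈ t := by
  obtain ⟨⟨⟨v, o⟩, x⟩, hx⟩ := u
  rcases o with _ | ⟨i, j⟩
  · refine ⟨univ.image fun i : Fin 3 => ((.inl (v, i), false), x), ?_, ?_⟩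
    · refine card_image_le.trans ?_
      rw [card_univ, Fintype.card_fin]
    · rintro ⟨⟨l, b⟩, y⟩ ⟨-, hw⟩
      cases b with
      | false =>
        obtain ⟨hw1, hw2⟩ : (v, none) = (cs N M s A).src l ∧ x = y := hw
        subst hw2
        rcases l with y | y | y | y
        · obtain ⟨h1, -⟩ := Prod.mk.inj (show ((v, none) : Cc N M s) = (y.1, none) from hw1)
          rw [mem_image]
          refine ⟨y.2, mem_univ _, ?_⟩
          rw [h1]
        · cases (Prod.mk.inj (show ((v, none) : Cc N M s) = (_, some _) from hw1)).2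
        · cases (Prod.mk.inj (show ((v, none) : Cc N M s) = (_, some _) from hw1)).2
        · cases (Prod.mk.inj (show ((v, none) : Cc N M s) = (_, some _) from hw1)).2
      | true =>
        obtain ⟨hw1, -⟩ : (v, none) = (cs N M s A).tgt l ∧ _ := hw
        rcases l with y | y | y | y
        · cases (Prod.mk.inj (show ((v, none) : Cc N M s) = (_, some _) from hw1)).2
        · cases (Prod.mk.inj (show ((v, none) : Cc N M s) = (_, some _) from hw1)).2
        · cases (Prod.mk.inj (show ((v, none) : Cc N M s) = (_, some _) from hw1)).2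
        · cases (Prod.mk.inj (show ((v, none) : Cc N M s) = (_, some _) from hw1)).2
  · refine ⟨low v i j x ∪ {up d v i j x}, ?_, ?_⟩
    · refine (card_union_le _ _).trans ?_
      rw [card_singleton]
      have := card_low (s := s) H v i j x
      omega
    · rintro ⟨⟨l, b⟩, y⟩ ⟨-, hw⟩
      rw [mem_union, mem_singleton]
      cases b with
      | false =>
        obtain ⟨hw1, hw2⟩ : (v, some (i, j)) = (cs N M s A).src l ∧ x = y := hw
        subst hw2
        right
        rcases l with y | y | y | y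
        · cases (Prod.mk.inj (show ((v, some (i, j)) : Cc N M s) = (_, none) from hw1)).2
        · obtain ⟨h1, h2⟩ := Prod.mk.inj (show ((v, some (i, j)) : Cc N M s) =
            (y.1, some (y.2.1, y.2.2.castSucc)) from hw1)
          obtain ⟨h3, h4⟩ := Prod.mk.inj (Option.some.inj h2)
          subst h1 h3 h4
          unfold up
          have h5 : ((y.2.2.castSucc : Fin (s + 1)) : ℕ) < s := y.2.2.2
          rw [dif_pos h5]
          rfl
        · obtain ⟨h1, h2⟩ := Prod.mk.inj (show ((v, some (i, j)) : Cc N M s) =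
            ((false, y), some (0, Fin.last s)) from hw1)
          obtain ⟨h3, h4⟩ := Prod.mk.inj (Option.some.inj h2)
          subst h1 h3 h4
          unfold up
          rw [dif_neg last_not_lt, if_pos rfl, if_neg (by simp)]
        · obtain ⟨h1, h2⟩ := Prod.mk.inj (show ((v, some (i, j)) : Cc N M s) =
            (y, some (2, Fin.last s)) from hw1)
          obtain ⟨h3, h4⟩ := Prod.mk.inj (Option.some.inj h2)
          subst h1 h3 h4
          unfold up
          rw [dif_neg last_not_lt, if_neg (by decide), if_neg (by decide)]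
      | true =>
        obtain ⟨hw1, hw2⟩ : (v, some (i, j)) = (cs N M s A).tgt l ∧
          x = (cs N M s A).f l y + tc N M s d l := hw
        rcases l with z | z | z | z
        · obtain ⟨h1, h2⟩ := Prod.mk.inj (show ((v, some (i, j)) : Cc N M s) =
            (z.1, some (z.2, 0)) from hw1)
          obtain ⟨h3, h4⟩ := Prod.mk.inj (Option.some.inj h2)
          subst h1 h3 h4
          left
          have h5 : x = rot z.2 y + 0 := hw2
          show _ ∈ ({((.inl (z.1, z.2), true), rti z.2 x)} : Finset ((Lc N M s × Bool) × (A × A)))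
          rw [mem_singleton, h5, add_zero, rti_rot]
        · obtain ⟨h1, h2⟩ := Prod.mk.inj (show ((v, some (i, j)) : Cc N M s) =
            (z.1, some (z.2.1, z.2.2.succ)) from hw1)
          obtain ⟨h3, h4⟩ := Prod.mk.inj (Option.some.inj h2)
          subst h1 h3 h4
          left
          have h5 : x = dbl y + 0 := hw2
          show _ ∈ (pre x).image fun y =>
            (((.inr (.inl (z.1, z.2.1, z.2.2)), true), y) : (Lc N M s × Bool) × (A × A))
          rw [mem_image]
          refine ⟨y, mem_filter.2 ⟨mem_univ _, ?_⟩, rfl⟩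
          rw [h5, add_zero]
        · obtain ⟨h1, h2⟩ := Prod.mk.inj (show ((v, some (i, j)) : Cc N M s) =
            ((true, z), some (0, Fin.last s)) from hw1)
          obtain ⟨h3, h4⟩ := Prod.mk.inj (Option.some.inj h2)
          subst h1 h3 h4
          right
          have h5 : x = y + tc N M s d (.inr (.inr (.inl z))) := hw2
          unfold up
          rw [dif_neg last_not_lt, if_pos rfl, if_pos rfl, h5]
          refine Prod.ext rfl ?_
          exact (add_sub_cancel_right _ _).symm
        · obtain ⟨h1, h2⟩ := Prod.mk.inj (show ((v, some (i, j)) : Cc N M s) =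
            (nx z, some (1, Fin.last s)) from hw1)
          obtain ⟨h3, h4⟩ := Prod.mk.inj (Option.some.inj h2)
          subst h1 h3 h4
          right
          have h5 : x = sgn y + 0 := hw2
          unfold up
          rw [dif_neg last_not_lt, if_neg (by decide), if_pos rfl, h5, add_zero, pv_nx]
          refine Prod.ext rfl (Prod.ext ?_ rfl)
          exact (neg_neg _).symm

theorem deg2c (hs1 : 1 ≤ s) (hs : (2 : A) ^ s = 0) (hh : (2 : A) ^ (s - 1) ≠ 0) (d : A) :
    Deg2 (cs N M s A) (tc N M s d) := by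
  rintro ⟨⟨⟨v, o⟩, x⟩, hx⟩
  rcases o with _ | ⟨i, j⟩
  · refine ⟨(.inl (v, 0), false), (.inl (v, 1), false), x, x, hx, hx, ?_, rfl, rfl⟩
    intro h
    have h1 := (Prod.mk.inj (Sum.inl.inj (Prod.mk.inj (Prod.mk.inj h).1).1)).2
    exact absurd h1 (by decide)
  · induction j using Fin.cases with
    | zero =>
      refine ⟨(.inl (v, i), true), (.inr (.inl (v, i, ⟨0, hs1⟩)), false), rti i x, x,
        mem_dv_zero _, hx, ?_, ?_, ?_⟩
      · intro h
        cases (Prod.mk.inj (Prod.mk.inj h).1).1
      · show ((v, some (i, 0)), x) = ((v, some (i, 0)), rot i (rti i x) + 0)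
        rw [rot_rti, add_zero]
      · rfl
    | succ j =>
      obtain ⟨z, hz⟩ : ∃ z, x.2 = 2 ^ ((j.succ : Fin (s + 1)) : ℕ) * z := hx
      have hj := j.2
      have h1 : (2 : A) ^ (s - 1) = 2 ^ (j : ℕ) * 2 ^ (s - 1 - j) := by
        rw [← pow_add]
        congr 1
        omega
      have h2 : (2 : A) * 2 ^ (s - 1) = 0 := by
        rw [← pow_succ', ← hs]
        congr 1
        omega
      refine ⟨(.inr (.inl (v, i, j)), true), (.inr (.inl (v, i, j)), true),
        (x.1, 2 ^ (j : ℕ) * z), (x.1, 2 ^ (j : ℕ) * z + 2 ^ (s - 1)), ⟨z, rfl⟩,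
        ⟨z + 2 ^ (s - 1 - j), ?_⟩, ?_, ?_, ?_⟩
      · show 2 ^ (j : ℕ) * z + 2 ^ (s - 1) = 2 ^ ((j.castSucc : Fin (s + 1)) : ℕ) * _
        rw [Fin.val_castSucc, h1]
        ring
      · intro h
        have h3 := (Prod.mk.inj (Prod.mk.inj h).2).2
        exact hh (left_eq_add.1 h3)
      · show ((v, some (i, j.succ)), x) = ((v, some (i, j.succ)),
          ((x.1, 2 * (2 ^ (j : ℕ) * z)) + (0 : A × A)))
        rw [add_zero]
        refine Prod.ext rfl (Prod.ext rfl ?_)
        show x.2 = _
        rw [hz, Fin.val_succ, pow_succ]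
        ring
      · show ((v, some (i, j.succ)), x) = ((v, some (i, j.succ)),
          ((x.1, 2 * (2 ^ (j : ℕ) * z + 2 ^ (s - 1))) + (0 : A × A)))
        rw [add_zero]
        refine Prod.ext rfl (Prod.ext rfl ?_)
        show x.2 = _
        rw [mul_add, h2, hz, Fin.val_succ, pow_succ]
        ring

theorem tc_zero : tc N M s (0 : A) = 0 := by
  funext l
  rcases l with x | x | x | x
  · rfl
  · rfl
  · show (if x = (0, 0) then ((0, 0) : A × A) else 0) = 0
    split_ifs <;> rfl
  · rfl

end ring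

/-! ### The ring of integers modulo a power of two -/

theorem two_pow_zero (s : ℕ) : (2 : ZMod (2 ^ s)) ^ s = 0 := by
  have h := ZMod.natCast_self (2 ^ s)
  rwa [Nat.cast_pow, Nat.cast_ofNat] at h

theorem two_pow_ne (s : ℕ) (hs : 1 ≤ s) : (2 : ZMod (2 ^ s)) ^ (s - 1) ≠ 0 := by
  intro h
  have h1 : ((2 ^ (s - 1) : ℕ) : ZMod (2 ^ s)) = 0 := by
    rw [Nat.cast_pow, Nat.cast_ofNat]
    exact h
  rw [ZMod.natCast_eq_zero_iff] at h1
  have h2 := Nat.le_of_dvd (pow_pos (by norm_num) _) h1
  have h3 : 2 ^ (s - 1) < 2 ^ s := Nat.pow_lt_pow_right (by norm_num) (by omega)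
  omega

theorem two_mul_zero (s : ℕ) (hs : 1 ≤ s) (z : ZMod (2 ^ s)) (hz : 2 * z = 0) :
    z = 0 ∨ z = 2 ^ (s - 1) := by
  have : NeZero (2 ^ s) := ⟨pow_ne_zero _ (by norm_num)⟩
  have h0 : z = ((z.val : ℕ) : ZMod (2 ^ s)) := (ZMod.natCast_zmod_val z).symm
  have h1 : ((2 * z.val : ℕ) : ZMod (2 ^ s)) = 0 := by
    rw [Nat.cast_mul, ← h0, Nat.cast_ofNat]
    exact hz
  rw [ZMod.natCast_eq_zero_iff] at h1
  have h2 : 2 ^ s = 2 * 2 ^ (s - 1) := by
    rw [← pow_succ']
    congr 1
    omega
  have h4 := z.val_lt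
  have h3 : 2 ^ (s - 1) ∣ z.val :=
    Nat.dvd_of_mul_dvd_mul_left (by norm_num) (h2 ▸ h1 : 2 * 2 ^ (s - 1) ∣ 2 * z.val)
  obtain ⟨c, hc⟩ := h3
  have h6 : 0 < 2 ^ (s - 1) := pow_pos (by norm_num) _
  have h5 : c < 2 := by
    by_contra h
    have : 2 ^ (s - 1) * 2 ≤ 2 ^ (s - 1) * c := Nat.mul_le_mul_left _ (by omega)
    omega
  interval_cases c
  · left
    rw [h0, hc]
    simp
  · right
    rw [h0, hc, mul_one, Nat.cast_pow, Nat.cast_ofNat]

end Pool.Agent.K4H90.Cub
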