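import Mathlib

/-!
# Partial matchings that look perfect to `d` observers modulo `p`

A design is a family of partial matchings of a set `N` of nodes with signs (the matchings join nodes
of opposite signs) whose number is `1` modulo `p` such that for every set `T` of at most `d` nodes
the number of the matchings with a given view at `T` is divisible by `p` if a node of `T` is not
matched in this view. It comes with a family of perfect matchings of `N` and a copy of `N` with
reversed signs which cannot be told from two independent partial matchings by `d` observers. From a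
design for `d` we form one for `2 d + 1`: it has `p + 1` copies of `N` and one reversed copy.
-/

set_option autoImplicit false
set_option linter.unusedSectionVars false

namespace Pool.Agent.K4H90.Cub

open Finset

/-- The function depends only on the values at `T`. -/
def Dep {α β γ : Type} (T : Finset α) (F : (α → β) → γ) : Prop :=
  ∀ g g' : α → β, (∀ x ∈ T, g x = g' x) → F g = F g'

/-- Two partial matchings side by side. -/
def mm {N I : Type} (m : I → N → Option N) (a b : I) : Bool × N → Option (Bool × N)
  | (false, x) => (m a x).map fun y => (false, y)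
  | (true, x) => (m b x).map fun y => (true, y)

/-- A design. -/
structure Des (K : Type) [Field K] (d : ℕ) where
  /-- The nodes. -/
  N : Type
  fN : Fintype N
  dN : DecidableEq N
  /-- The signs. -/
  sg : N → Bool
  /-- The index set of the partial matchings. -/
  I : Type
  fI : Fintype I
  /-- The index set of the perfect matchings. -/
  J : Type
  fJ : Fintype J
  m : I → N → Option N
  n : J → Bool × N → Bool × N
  cI : (Fintype.card I : K) = 1
  cJ : (Fintype.card J : K) = 1
  m_symm : ∀ i x y, m i x = some y → m i y = some x
  m_sg : ∀ i x y, m i x = some y → sg y = !sg x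
  n_symm : ∀ j x, n j (n j x) = x
  n_sg : ∀ j x, xor (n j x).1 (sg (n j x).2) = !(xor x.1 (sg x.2))
  P : ∀ T : Finset N, T.card ≤ d → ∀ F : (N → Option N) → K, Dep T F →
    (∀ g, (∀ x ∈ T, g x ≠ none) → F g = 0) → ∑ i, F (m i) = 0
  Q : ∀ T : Finset (Bool × N), T.card ≤ d → ∀ F : (Bool × N → Option (Bool × N)) → K, Dep T F →
    ∑ j, F (fun x => some (n j x)) = ∑ a, ∑ b, F (mm m a b)

attribute [instance] Des.fN Des.dN Des.fI Des.fJ

section resample

variable {K : Type} [Field K] {C I : Type} [Fintype C] [DecidableEq C] [Fintype I]

/-- Resampling one value. -/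
theorem resample (h : (Fintype.card I : K) = 1) (c : C) (f : (C → I) → K) :
    ∑ a, f a = ∑ a, ∑ t, f (Function.update a c t) := by
  have h1 : ∑ a : C → I, ∑ t, f (Function.update a c t) = ∑ a : C → I, ∑ _t : I, f a := by
    rw [← Fintype.sum_prod_type', ← Fintype.sum_prod_type']
    refine Fintype.sum_equiv
      (⟨fun x => (Function.update x.1 c x.2, x.1 c), fun x => (Function.update x.1 c x.2, x.1 c),
        ?_, ?_⟩ : (C → I) × I ≃ (C → I) × I) _ _ ?_
    · intro x
      refine Prod.ext ?_ ?_
      · simp
      · simp
    · intro x
      refine Prod.ext ?_ ?_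
      · simp
      · simp
    · intro x
      rfl
  rw [h1]
  simp only [Finset.sum_const, Finset.card_univ, nsmul_eq_mul, h, one_mul]

end resample

section roles

variable {K : Type} [Field K] {d : ℕ} (D : Des K d) {C : Type} [Fintype C] [DecidableEq C]

/-- The member of a pair with the side `w`, if `c` has the side `b` and `c'` is the other one. -/
def pr (b : Bool) (c c' : C) (w : Bool) : C := if w = b then c else c'

/-- The matching that belongs to the roles `ρ` of the copies and to the samples `a`, `j`. -/
def gg (ρ : C → Option (Bool × C)) (a : C → D.I) (j : C → D.J) : C × D.N → Option (C × D.N) :=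
  fun u => match ρ u.1 with
    | none => (D.m (a u.1) u.2).map fun y => (u.1, y)
    | some r => some (pr r.1 u.1 r.2 (D.n (j (pr r.1 u.1 r.2 false)) (r.1, u.2)).1,
        (D.n (j (pr r.1 u.1 r.2 false)) (r.1, u.2)).2)

theorem gg_none {ρ : C → Option (Bool × C)} {a : C → D.I} {j : C → D.J} {c : C} {x : D.N}
    (h : ρ c = none) : gg D ρ a j (c, x) = (D.m (a c) x).map fun y => (c, y) := by
  unfold gg
  simp only [h]

theorem gg_some {ρ : C → Option (Bool × C)} {a : C → D.I} {j : C → D.J} {c c' : C} {b : Bool}
    {x : D.N} (h : ρ c = some (b, c')) : gg D ρ a j (c, x) =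
      some (pr b c c' (D.n (j (pr b c c' false)) (b, x)).1,
        (D.n (j (pr b c c' false)) (b, x)).2) := by
  unfold gg
  simp only [h]

/-- Valid roles. -/
def Val (tp : C → Bool) (ρ : C → Option (Bool × C)) : Prop :=
  ∀ c b c', ρ c = some (b, c') → ρ c' = some (!b, c) ∧ c' ≠ c ∧ tp c' = !tp c

theorem gg_symm {tp : C → Bool} {ρ : C → Option (Bool × C)} (hρ : Val tp ρ) (a : C → D.I)
    (j : C → D.J) (u v : C × D.N) (h : gg D ρ a j u = some v) : gg D ρ a j v = some u := by
  obtain ⟨c, x⟩ := u
  rcases hc : ρ c with _ | ⟨b, c'⟩
  · rw [gg_none D hc, Option.map_eq_some_iff] at h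
    obtain ⟨y, h1, rfl⟩ := h
    rw [gg_none D hc, D.m_symm _ _ _ h1]
    rfl
  · rw [gg_some D hc] at h
    obtain ⟨h1, h2, -⟩ := hρ _ _ _ hc
    have h3 := D.n_symm (j (pr b c c' false)) (b, x)
    rcases h4 : D.n (j (pr b c c' false)) (b, x) with ⟨b', y⟩
    rw [h4] at h h3
    have h5 : v = (pr b c c' b', y) := (Option.some.inj h).symm
    subst h5
    by_cases h6 : b' = b
    · subst h6
      have h7 : pr b' c c' b' = c := if_pos rfl
      rw [h7, gg_some D hc, h3]
      show some (pr b' c c' b', x) = _
      rw [h7]
    · have h7 : pr b c c' b' = c' := if_neg h6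
      have h8 : b' = !b := by
        cases b <;> cases b' <;> simp_all
      have h9 : pr (!b) c' c false = pr b c c' false := by
        unfold pr
        cases b <;> simp
      rw [h7, gg_some D h1, h9, ← h8, h3]
      have h10 : pr b' c' c b = c := if_neg (Ne.symm h6)
      show some (pr b' c' c b, x) = _
      rw [h10]

theorem gg_sg {tp : C → Bool} {ρ : C → Option (Bool × C)} (hρ : Val tp ρ) (a : C → D.I)
    (j : C → D.J) (u v : C × D.N) (h : gg D ρ a j u = some v) :
    xor (tp v.1) (D.sg v.2) = !(xor (tp u.1) (D.sg u.2)) := by
  obtain ⟨c, x⟩ := u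
  rcases hc : ρ c with _ | ⟨b, c'⟩
  · rw [gg_none D hc, Option.map_eq_some_iff] at h
    obtain ⟨y, h1, rfl⟩ := h
    have h2 := D.m_sg _ _ _ h1
    show xor (tp c) (D.sg y) = !(xor (tp c) (D.sg x))
    rw [h2]
    cases tp c <;> simp
  · rw [gg_some D hc] at h
    obtain ⟨h1, h2, h2'⟩ := hρ _ _ _ hc
    have h3 := D.n_sg (j (pr b c c' false)) (b, x)
    rcases h4 : D.n (j (pr b c c' false)) (b, x) with ⟨b', y⟩
    rw [h4] at h h3
    have h5 : v = (pr b c c' b', y) := (Option.some.inj h).symm
    subst h5
    have h3' : xor b' (D.sg y) = !(xor b (D.sg x)) := h3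
    by_cases h6 : b' = b
    · subst h6
      have h7 : pr b' c c' b' = c := if_pos rfl
      show xor (tp (pr b' c c' b')) (D.sg y) = !(xor (tp c) (D.sg x))
      rw [h7]
      revert h3'
      cases tp c <;> cases b' <;> cases D.sg x <;> cases D.sg y <;> simp
    · have h7 : pr b c c' b' = c' := if_neg h6
      show xor (tp (pr b c c' b')) (D.sg y) = !(xor (tp c) (D.sg x))
      rw [h7, h2']
      revert h3' h6
      cases tp c <;> cases b' <;> cases b <;> cases D.sg x <;> cases D.sg y <;> simp

/-- The sum over the samples. -/
def VV (ρ : C → Option (Bool × C)) (F : (C × D.N → Option (C × D.N)) → K) : K :=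
  ∑ a : C → D.I, ∑ j : C → D.J, F (gg D ρ a j)

/-- The part of `T` in the copies `c`, `c'`. -/
def part (T : Finset (C × D.N)) (c c' : C) : Finset (C × D.N) :=
  T.filter fun u => u.1 = c ∨ u.1 = c'

/-- The roles without the pair `c`, `c'`. -/
def rem (ρ : C → Option (Bool × C)) (c c' : C) : C → Option (Bool × C) :=
  fun e => if e = c ∨ e = c' then none else ρ e

theorem rem_val {tp : C → Bool} {ρ : C → Option (Bool × C)} (hρ : Val tp ρ) {b : Bool} {c c' : C}
    (h : ρ c = some (b, c')) : Val tp (rem ρ c c') := by
  intro e s e' he
  unfold rem at he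
  by_cases h1 : e = c ∨ e = c'
  · rw [if_pos h1] at he
    cases he
  · rw [if_neg h1] at he
    obtain ⟨h2, h3, h4⟩ := hρ _ _ _ he
    refine ⟨?_, h3, h4⟩
    unfold rem
    rw [if_neg]
    · exact h2
    · rintro (rfl | rfl)
      · rw [h] at h2
        exact h1 (Or.inr (Prod.mk.inj (Option.some.inj h2)).2.symm)
      · rw [(hρ _ _ _ h).1] at h2
        exact h1 (Or.inl (Prod.mk.inj (Option.some.inj h2)).2.symm)

/-- A pair with few observers can be separated. -/
theorem VV_rem {tp : C → Bool} {ρ : C → Option (Bool × C)} (hρ : Val tp ρ) {c c' : C}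
    (h : ρ c = some (false, c')) {T : Finset (C × D.N)} (hT : (part D T c c').card ≤ d)
    {F : (C × D.N → Option (C × D.N)) → K} (hF : Dep T F) :
    VV D ρ F = VV D (rem ρ c c') F := by
  obtain ⟨h1, h2, -⟩ := hρ _ _ _ h
  unfold VV
  have hl : ∑ a : C → D.I, ∑ j : C → D.J, F (gg D ρ a j) =
      ∑ a : C → D.I, ∑ j : C → D.J, ∑ t, F (gg D ρ a (Function.update j c t)) :=
    Finset.sum_congr rfl fun a _ => resample D.cJ c fun j => F (gg D ρ a j)
  have hr : ∑ a : C → D.I, ∑ j : C → D.J, F (gg D (rem ρ c c') a j) =
      ∑ a : C → D.I, ∑ j : C → D.J, ∑ t, ∑ s,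
        F (gg D (rem ρ c c') (Function.update (Function.update a c t) c' s) j) := by
    rw [Finset.sum_comm]
    conv_rhs => rw [Finset.sum_comm]
    refine Finset.sum_congr rfl fun j _ => ?_
    rw [resample D.cI c' fun a => F (gg D (rem ρ c c') a j)]
    rw [resample D.cI c fun a => ∑ s, F (gg D (rem ρ c c') (Function.update a c' s) j)]
  rw [hl, hr]
  refine Finset.sum_congr rfl fun a _ => Finset.sum_congr rfl fun j _ => ?_
  -- the function of the view at the two copies
  let em : Bool × D.N → C × D.N := fun w => (pr false c c' w.1, w.2)
  let G : (Bool × D.N → Option (Bool × D.N)) → C × D.N → Option (C × D.N) := fun q u =>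
    if u.1 = c then (q (false, u.2)).map em else if u.1 = c' then (q (true, u.2)).map em else
      gg D ρ a j u
  have hG := D.Q (univ.filter fun w => em w ∈ T) ?_ (fun q => F (G q)) ?_
  · have e1 : ∀ t, gg D ρ a (Function.update j c t) = G fun x => some (D.n t x) := by
      intro t
      funext u
      obtain ⟨e, x⟩ := u
      by_cases he : e = c
      · subst he
        rw [gg_some D h]
        have e2 : pr false e c' false = e := if_pos rfl
        rw [e2, Function.update_self]
        show _ = if e = e then _ else _
        rw [if_pos rfl]
        rfl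
      · by_cases he' : e = c'
        · subst he'
          rw [gg_some D h1]
          have e2 : pr (!false) e c false = c := if_neg (by decide)
          rw [e2, Function.update_self]
          show _ = if e = c then _ else if e = e then _ else _
          rw [if_neg he, if_pos rfl]
          show some (pr true e c (D.n t (true, x)).1, (D.n t (true, x)).2) =
            some (pr false c e (D.n t (true, x)).1, (D.n t (true, x)).2)
          congr 2
          unfold pr
          cases (D.n t (true, x)).1 <;> simp
        · show _ = if e = c then _ else if e = c' then _ else gg D ρ a j (e, x)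
          rw [if_neg he, if_neg he']
          rcases hc : ρ e with _ | ⟨b, e'⟩
          · rw [gg_none D hc, gg_none D hc]
          · rw [gg_some D hc, gg_some D hc]
            have e2 : pr b e e' false ≠ c := by
              unfold pr
              cases b with
              | false => simpa using he
              | true =>
                simp only [Bool.false_eq_true, if_false]
                rintro rfl
                have e3 := (hρ _ _ _ hc).1
                rw [h] at e3
                exact he' (Prod.mk.inj (Option.some.inj e3)).2.symm
            rw [Function.update_of_ne e2]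
    have e2 : ∀ t s, gg D (rem ρ c c') (Function.update (Function.update a c t) c' s) j =
        G (mm D.m t s) := by
      intro t s
      funext u
      obtain ⟨e, x⟩ := u
      by_cases he : e = c
      · subst he
        have e3 : rem ρ e c' e = none := if_pos (Or.inl rfl)
        rw [gg_none D e3]
        show _ = if e = e then _ else _
        rw [if_pos rfl, Function.update_of_ne (Ne.symm h2), Function.update_self]
        show _ = Option.map em (Option.map (fun y => (false, y)) (D.m t x))
        rw [Option.map_map]
        congr 1
      · by_cases he' : e = c'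
        · subst he'
          have e3 : rem ρ c e e = none := if_pos (Or.inr rfl)
          rw [gg_none D e3]
          show _ = if e = c then _ else if e = e then _ else _
          rw [if_neg he, if_pos rfl, Function.update_self]
          show _ = Option.map em (Option.map (fun y => (true, y)) (D.m s x))
          rw [Option.map_map]
          congr 1
        · show _ = if e = c then _ else if e = c' then _ else gg D ρ a j (e, x)
          rw [if_neg he, if_neg he']
          have e3 : rem ρ c c' e = ρ e := if_neg (fun h => h.elim he he')
          rcases hc : ρ e with _ | ⟨b, e'⟩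
          · rw [gg_none D (e3.trans hc), gg_none D hc, Function.update_of_ne he',
              Function.update_of_ne he]
          · rw [gg_some D (e3.trans hc), gg_some D hc]
    simp only [e1, e2]
    exact hG
  · refine le_trans ?_ hT
    refine Finset.card_le_card_of_injOn em ?_ ?_
    · intro w hw
      have hw' := (mem_filter.1 (Finset.mem_coe.1 hw)).2
      refine Finset.mem_coe.2 (mem_filter.2 ⟨hw', ?_⟩)
      show pr false c c' w.1 = c ∨ pr false c c' w.1 = c'
      unfold pr
      cases w.1 <;> simp
    · intro w _ w' _ hww
      have e1 := (Prod.mk.inj hww)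
      refine Prod.ext ?_ e1.2
      have e2 := e1.1
      unfold pr at e2
      revert e2
      cases w.1 <;> cases w'.1 <;> simp [h2, Ne.symm h2]
  · intro q q' hq
    refine hF _ _ fun u hu => ?_
    obtain ⟨e, x⟩ := u
    show (if e = c then _ else if e = c' then _ else _) =
      (if e = c then _ else if e = c' then _ else _)
    by_cases he : e = c
    · subst he
      rw [if_pos rfl, if_pos rfl]
      have e1 : q (false, x) = q' (false, x) := by
        refine hq _ (mem_filter.2 ⟨mem_univ _, ?_⟩)
        show (pr false e c' false, x) ∈ T
        have e2 : pr false e c' false = e := if_pos rfl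
        rw [e2]
        exact hu
      show (q (false, x)).map em = (q' (false, x)).map em
      rw [e1]
    · rw [if_neg he, if_neg he]
      by_cases he' : e = c'
      · subst he'
        rw [if_pos rfl, if_pos rfl]
        have e1 : q (true, x) = q' (true, x) := by
          refine hq _ (mem_filter.2 ⟨mem_univ _, ?_⟩)
          show (pr false c e true, x) ∈ T
          have e2 : pr false c e true = e := if_neg (by decide)
          rw [e2]
          exact hu
        show (q (true, x)).map em = (q' (true, x)).map em
        rw [e1]
      · rw [if_neg he', if_neg he']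

/-- Errors in a single copy with few observers cancel. -/
theorem VV_single {ρ : C → Option (Bool × C)} {c : C} (h : ρ c = none) {T : Finset (C × D.N)}
    (hT : (T.filter fun u => u.1 = c).card ≤ d) {F : (C × D.N → Option (C × D.N)) → K}
    (hF : Dep T F) (hF0 : ∀ g, (∀ x, (c, x) ∈ T → g (c, x) ≠ none) → F g = 0) :
    VV D ρ F = 0 := by
  unfold VV
  rw [Finset.sum_comm]
  refine Finset.sum_eq_zero fun j _ => ?_
  rw [resample D.cI c]
  refine Finset.sum_eq_zero fun a _ => ?_
  let G : (D.N → Option D.N) → C × D.N → Option (C × D.N) := fun q u =>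
    if u.1 = c then (q u.2).map (fun y => (c, y)) else gg D ρ a j u
  have e1 : ∀ t, gg D ρ (Function.update a c t) j = G (D.m t) := by
    intro t
    funext u
    obtain ⟨e, x⟩ := u
    show _ = if e = c then (D.m t x).map (fun y => (c, y)) else gg D ρ a j (e, x)
    by_cases he : e = c
    · subst he
      rw [gg_none D h, Function.update_self, if_pos rfl]
    · rw [if_neg he]
      rcases hc : ρ e with _ | ⟨b, e'⟩
      · rw [gg_none D hc, gg_none D hc, Function.update_of_ne he]
      · rw [gg_some D hc, gg_some D hc]
  simp only [e1]
  refine D.P (univ.filter fun x => (c, x) ∈ T) ?_ (fun q => F (G q)) ?_ ?_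
  · refine le_trans ?_ hT
    refine Finset.card_le_card_of_injOn (fun x => (c, x)) ?_ ?_
    · intro x hx
      exact Finset.mem_coe.2 (mem_filter.2 ⟨(mem_filter.1 (Finset.mem_coe.1 hx)).2, rfl⟩)
    · intro x _ y _ hxy
      exact (Prod.mk.inj hxy).2
  · intro q q' hq
    refine hF _ _ fun u hu => ?_
    obtain ⟨e, x⟩ := u
    show (if e = c then (q x).map _ else _) = (if e = c then (q' x).map _ else _)
    by_cases he : e = c
    · subst he
      rw [if_pos rfl, if_pos rfl, hq x (mem_filter.2 ⟨mem_univ _, hu⟩)]
    · rw [if_neg he, if_neg he]
  · intro q hq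
    refine hF0 _ fun x hx => ?_
    show (if c = c then (q x).map _ else _) ≠ none
    rw [if_pos rfl]
    intro h1
    exact hq x (mem_filter.2 ⟨mem_univ _, hx⟩) (Option.map_eq_none_iff.1 h1)

/-! ### Heavy pairs -/

open Classical in
/-- The roles of the heavy pairs. -/
noncomputable def hp (T : Finset (C × D.N)) (ρ : C → Option (Bool × C)) : C → Option (Bool × C) :=
  fun c => match ρ c with
    | none => none
    | some r => if d < (part D T c r.2).card then some r else none

theorem part_comm (T : Finset (C × D.N)) (c c' : C) : part D T c c' = part D T c' c := by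
  unfold part
  congr 1
  funext u
  rw [or_comm]

theorem VV_hp {tp : C → Bool} (n : ℕ) : ∀ {ρ : C → Option (Bool × C)} (_ : Val tp ρ)
    {T : Finset (C × D.N)} {F : (C × D.N → Option (C × D.N)) → K} (_ : Dep T F)
    (_ : (univ.filter fun c => (ρ c).isSome).card ≤ n),
    VV D ρ F = VV D (hp D T ρ) F := by
  classical
  induction n with
  | zero =>
    intro ρ _ T F _ hn
    have h1 : ∀ c, ρ c = none := by
      intro c
      by_contra h
      have h2 : c ∈ univ.filter fun c => (ρ c).isSome :=
        mem_filter.2 ⟨mem_univ _, Option.isSome_iff_ne_none.2 h⟩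
      rw [Finset.card_eq_zero.1 (Nat.le_zero.1 hn)] at h2
      exact Finset.notMem_empty _ h2
    have h2 : hp D T ρ = ρ := by
      funext c
      unfold hp
      simp only [h1 c]
    rw [h2]
  | succ n ih =>
    intro ρ hρ T F hF hn
    by_cases h : ∃ c c', ρ c = some (false, c') ∧ (part D T c c').card ≤ d
    · obtain ⟨c, c', h1, h2⟩ := h
      obtain ⟨h3, h4, -⟩ := hρ _ _ _ h1
      rw [VV_rem D hρ h1 h2 hF, ih (rem_val hρ h1) hF]
      · congr 1
        funext e
        unfold hp
        by_cases he : e = c ∨ e = c'
        · have h5 : rem ρ c c' e = none := if_pos he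
          simp only [h5]
          rcases he with rfl | rfl
          · simp only [h1]
            rw [if_neg (by show ¬ d < (part D T e c').card; omega)]
          · simp only [h3]
            rw [if_neg (by show ¬ d < (part D T e c).card; rw [part_comm]; omega)]
        · have h5 : rem ρ c c' e = ρ e := if_neg he
          simp only [h5]
      · have h5 : (univ.filter fun e => (rem ρ c c' e).isSome) ⊆
            (univ.filter fun e => (ρ e).isSome).erase c := by
          intro e he
          have he' := (mem_filter.1 he).2
          have h6 : ¬ (e = c ∨ e = c') := by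
            intro h7
            have h8 : rem ρ c c' e = none := if_pos h7
            rw [h8] at he'
            cases he'
          have h7 : rem ρ c c' e = ρ e := if_neg h6
          rw [h7] at he'
          exact mem_erase.2 ⟨fun h8 => h6 (Or.inl h8), mem_filter.2 ⟨mem_univ _, he'⟩⟩
        have h6 := card_le_card h5
        rw [card_erase_of_mem (mem_filter.2 ⟨mem_univ _, by rw [h1]; rfl⟩)] at h6
        omega
    · push Not at h
      have h2 : hp D T ρ = ρ := by
        funext c
        unfold hp
        rcases hc : ρ c with _ | ⟨b, c'⟩
        · rfl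
        · simp only
          rw [if_pos]
          cases b with
          | false => exact h c c' hc
          | true =>
            have h3 := (hρ _ _ _ hc).1
            have h4 := h c' c h3
            rw [part_comm]
            exact h4
      rw [h2]

theorem VV_eq_hp {tp : C → Bool} {ρ : C → Option (Bool × C)} (hρ : Val tp ρ)
    {T : Finset (C × D.N)} {F : (C × D.N → Option (C × D.N)) → K} (hF : Dep T F) :
    VV D ρ F = VV D (hp D T ρ) F :=
  VV_hp D _ hρ hF le_rfl

/-- The role of a single pair. -/
def sp (c c' : C) : C → Option (Bool × C) := fun e =>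
  if e = c then some (false, c') else if e = c' then some (true, c) else none

theorem sp_val {tp : C → Bool} {c c' : C} (h : c' ≠ c) (ht : tp c' = !tp c) : Val tp (sp c c') := by
  intro e b e' he
  unfold sp at he
  by_cases h1 : e = c
  · rw [if_pos h1] at he
    obtain ⟨rfl, rfl⟩ := Prod.mk.inj (Option.some.inj he)
    subst h1
    refine ⟨?_, h, ht⟩
    unfold sp
    rw [if_neg h, if_pos rfl]
    rfl
  · rw [if_neg h1] at he
    by_cases h2 : e = c'
    · rw [if_pos h2] at he
      obtain ⟨rfl, rfl⟩ := Prod.mk.inj (Option.some.inj he)
      subst h2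
      refine ⟨?_, Ne.symm h, ?_⟩
      · unfold sp
        rw [if_pos rfl]
        rfl
      · rw [ht]
        cases tp c <;> rfl
    · rw [if_neg h2] at he
      cases he

/-- No pairs. -/
def np : C → Option (Bool × C) := fun _ => none

theorem np_val {tp : C → Bool} : Val tp (np : C → Option (Bool × C)) := fun _ _ _ h => by cases h

theorem hp_np (T : Finset (C × D.N)) : hp D T (np : C → Option (Bool × C)) = np := rfl

/-- The excess of a pair. -/
def dl (F : (C × D.N → Option (C × D.N)) → K) (c c' : C) : K := VV D (sp c c') F - VV D np F

theorem dl_light {tp : C → Bool} {c c' : C} (h : c' ≠ c) (ht : tp c' = !tp c)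
    {T : Finset (C × D.N)} {F : (C × D.N → Option (C × D.N)) → K} (hF : Dep T F)
    (hd : (part D T c c').card ≤ d) : dl D F c c' = 0 := by
  unfold dl
  have h1 : (sp c c' : C → Option (Bool × C)) c = some (false, c') := if_pos rfl
  rw [VV_rem D (sp_val h ht) h1 hd hF, sub_eq_zero]
  congr 1
  funext e
  unfold rem sp np
  by_cases h2 : e = c
  · rw [if_pos (Or.inl h2)]
  · by_cases h3 : e = c'
    · rw [if_pos (Or.inr h3)]
    · rw [if_neg (fun h => h.elim h2 h3), if_neg h2, if_neg h3]

/-- The pair that starts at a copy with the side `false`. -/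
def ex (F : (C × D.N → Option (C × D.N)) → K) (ρ : C → Option (Bool × C)) (c : C) : K :=
  match ρ c with
  | some (false, c') => dl D F c c'
  | _ => 0

/-- Additivity. -/
theorem VV_add {tp : C → Bool} {ρ : C → Option (Bool × C)} (hρ : Val tp ρ)
    {T : Finset (C × D.N)} (hT : T.card ≤ 2 * d + 1) {F : (C × D.N → Option (C × D.N)) → K}
    (hF : Dep T F) : VV D ρ F = VV D np F + ∑ c, ex D F ρ c := by
  classical
  by_cases h : ∃ c c', ρ c = some (false, c') ∧ d < (part D T c c').card
  · obtain ⟨c, c', h1, h2⟩ := h
    obtain ⟨h3, h4, h5⟩ := hρ _ _ _ h1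
    -- all other pairs are light
    have h6 : ∀ e b e', ρ e = some (b, e') → e ≠ c → e ≠ c' → (part D T e e').card ≤ d := by
      intro e b e' he hc hc'
      obtain ⟨h7, h8, -⟩ := hρ _ _ _ he
      have h9 : e' ≠ c := by
        rintro rfl
        rw [h1] at h7
        exact hc' (Prod.mk.inj (Option.some.inj h7)).2.symm
      have h10 : e' ≠ c' := by
        rintro rfl
        rw [h3] at h7
        exact hc (Prod.mk.inj (Option.some.inj h7)).2.symm
      have h11 : Disjoint (part D T c c') (part D T e e') := by
        rw [disjoint_left]
        intro u hu hu'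
        rcases (mem_filter.1 hu).2 with h12 | h12 <;> rcases (mem_filter.1 hu').2 with h13 | h13
        · exact hc (h13.symm.trans h12)
        · exact h9 (h13.symm.trans h12)
        · exact hc' (h13.symm.trans h12)
        · exact h10 (h13.symm.trans h12)
      have h12 := card_union_of_disjoint h11
      have h13 : (part D T c c' ∪ part D T e e').card ≤ T.card :=
        card_le_card (union_subset (filter_subset _ _) (filter_subset _ _))
      omega
    have h7 : hp D T ρ = sp c c' := by
      funext e
      unfold hp sp
      by_cases he : e = c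
      · subst he
        simp only [h1, if_true]
        rw [if_pos h2]
      · rw [if_neg he]
        by_cases he' : e = c'
        · subst he'
          simp only [h3, if_true]
          rw [if_pos (by rw [part_comm]; exact h2)]
          rfl
        · rw [if_neg he']
          rcases hc : ρ e with _ | ⟨b, e'⟩
          · rfl
          · simp only
            rw [if_neg (by have := h6 e b e' hc he he'; omega)]
    rw [VV_eq_hp D hρ hF, h7, Finset.sum_eq_single c]
    · unfold ex dl
      simp only [h1]
      ring
    · intro e _ he
      unfold ex
      rcases hc : ρ e with _ | ⟨b, e'⟩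
      · rfl
      · cases b with
        | true => rfl
        | false =>
          have h8 : e ≠ c' := by
            rintro rfl
            rw [h3] at hc
            have := (Prod.mk.inj (Option.some.inj hc)).1
            cases this
          obtain ⟨-, h10, h11⟩ := hρ _ _ _ hc
          exact dl_light D h10 h11 hF (h6 e _ e' hc he h8)
    · intro h8
      exact absurd (mem_univ _) h8
  · push Not at h
    have h7 : hp D T ρ = np := by
      funext e
      unfold hp np
      rcases hc : ρ e with _ | ⟨b, e'⟩
      · rfl
      · simp only
        rw [if_neg]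
        cases b with
        | false => exact (h e e' hc).not_gt
        | true =>
          have h3 := h e' e (hρ _ _ _ hc).1
          rw [part_comm]
          exact h3.not_gt
    rw [VV_eq_hp D hρ hF, h7, Finset.sum_eq_zero, add_zero]
    intro e _
    unfold ex
    rcases hc : ρ e with _ | ⟨b, e'⟩
    · rfl
    · cases b with
      | true => rfl
      | false =>
        obtain ⟨-, h10, h11⟩ := hρ _ _ _ hc
        exact dl_light D h10 h11 hF (h e e' hc)

/-! ### Errors -/

open Classical in
/-- The nodes of `T` in the copies of `L` are matched. -/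
noncomputable def ok (T : Finset (C × D.N)) (L : Finset C) (g : C × D.N → Option (C × D.N)) : K :=
  if ∀ u ∈ T, u.1 ∈ L → g u ≠ none then 1 else 0

theorem ok_dep (T : Finset (C × D.N)) (L : Finset C) : Dep T (ok D T L) := by
  classical
  intro g g' h
  unfold ok
  have h1 : (∀ u ∈ T, u.1 ∈ L → g u ≠ none) ↔ (∀ u ∈ T, u.1 ∈ L → g' u ≠ none) :=
    forall₂_congr fun u hu => by rw [h u hu]
  simp only [h1]

theorem ok_insert (T : Finset (C × D.N)) (L : Finset C) (c : C)
    (g : C × D.N → Option (C × D.N)) :
    ok D T (insert c L) g = ok D T L g * ok D T {c} g := by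
  classical
  unfold ok
  by_cases h1 : ∀ u ∈ T, u.1 ∈ L → g u ≠ none
  · by_cases h2 : ∀ u ∈ T, u.1 ∈ ({c} : Finset C) → g u ≠ none
    · rw [if_pos h1, if_pos h2, if_pos, one_mul]
      intro u hu hc
      rcases mem_insert.1 hc with h3 | h3
      · exact h2 u hu (mem_singleton.2 h3)
      · exact h1 u hu h3
    · rw [if_pos h1, if_neg h2, if_neg, mul_zero]
      intro h3
      exact h2 fun u hu hc => h3 u hu (mem_insert.2 (Or.inl (mem_singleton.1 hc)))
  · rw [if_neg h1, if_neg, zero_mul]
    intro h3
    exact h1 fun u hu hc => h3 u hu (mem_insert_of_mem hc)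

theorem VV_ok {ρ : C → Option (Bool × C)} {T : Finset (C × D.N)}
    {F : (C × D.N → Option (C × D.N)) → K} (hF : Dep T F) (L : Finset C)
    (hL : ∀ c ∈ L, (T.filter fun u => u.1 = c).card ≤ d) :
    VV D ρ F = VV D ρ (fun g => F g * ok D T L g) := by
  classical
  induction L using Finset.induction_on with
  | empty =>
    congr 1
    funext g
    unfold ok
    rw [if_pos, mul_one]
    intro u _ h
    exact absurd h (Finset.notMem_empty _)
  | insert c L hc ih =>
    rw [ih fun e he => hL e (mem_insert_of_mem he), ← sub_eq_zero]
    have h1 : VV D ρ (fun g => F g * ok D T L g) - VV D ρ (fun g => F g * ok D T (insert c L) g) =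
        VV D ρ (fun g => F g * ok D T L g * (1 - ok D T {c} g)) := by
      unfold VV
      rw [← Finset.sum_sub_distrib]
      refine Finset.sum_congr rfl fun a _ => ?_
      rw [← Finset.sum_sub_distrib]
      refine Finset.sum_congr rfl fun j _ => ?_
      dsimp only
      rw [ok_insert]
      ring
    rw [h1]
    rcases h2 : ρ c with _ | ⟨b, c'⟩
    · refine VV_single D h2 (hL c (mem_insert_self _ _)) ?_ ?_
      · intro g g' h
        dsimp only
        rw [hF g g' h, ok_dep D T L g g' h, ok_dep D T {c} g g' h]
      · intro g hg
        have h3 : ok D T {c} g = 1 := by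
          unfold ok
          rw [if_pos]
          rintro ⟨e, x⟩ hu he
          have h4 : e = c := mem_singleton.1 he
          subst h4
          exact hg x hu
        rw [h3, sub_self, mul_zero]
    · unfold VV
      refine Finset.sum_eq_zero fun a _ => Finset.sum_eq_zero fun j _ => ?_
      have h3 : ok D T {c} (gg D ρ a j) = 1 := by
        unfold ok
        rw [if_pos]
        rintro ⟨e, x⟩ _ he
        have h4 : e = c := mem_singleton.1 he
        subst h4
        rw [gg_some D h2]
        exact Option.some_ne_none _
      dsimp only
      rw [h3, sub_self, mul_zero]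

end roles

end Pool.Agent.K4H90.Cub
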