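import Pool.Agent.K4H90.AllF.Tour
import Pool.Agent.TH658.Dg.Im

/-!
# Graphs of links with pendant paths

There is a group for every class. A link from a class to another one is a homomorphism. Every
element of the group at the source of a link is joined to its (twisted) image by a path with two
inner vertices, to which paths are attached whose lengths tell the link and its direction.
-/

set_option autoImplicit false
set_option linter.unusedSectionVars false

namespace Pool.Agent.K4H90.Cub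

open Finset Pool.Agent.TH658.Dg Pool.Agent.TH658.Sos Pool.Agent.K4H90.AllF

/-- Classes and links. -/
structure LS (C L B : Type) [AddCommGroup B] where
  Γ : C → AddSubgroup B
  src : L → C
  tgt : L → C
  f : L → B →+ B
  hf : ∀ l x, x ∈ Γ (src l) → f l x ∈ Γ (tgt l)

section

variable {C L B : Type} [Fintype C] [DecidableEq C] [Fintype L] [DecidableEq L] [AddCommGroup B]
  [Fintype B] [DecidableEq B] (S : LS C L B)

/-- The vertices: the elements of the groups of the classes, and the vertices of the paths. -/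
abbrev Vx (S : LS C L B) : Type := {x : C × B // x.2 ∈ S.Γ x.1} ⊕
  {z : ((L × Bool) × B) × Fin (Fintype.card (L × Bool) + 1) //
    z.1.2 ∈ S.Γ (S.src z.1.1.1) ∧ (z.2 : ℕ) ≤ nm z.1.1 + 1}

noncomputable instance instVx : Fintype (Vx S) := by
  classical
  infer_instance

/-- A vertex of a path. -/
def pt (q : L × Bool) (x : B) (t : ℕ) (hx : x ∈ S.Γ (S.src q.1)) (ht : t ≤ nm q + 1) : Vx S :=
  .inr ⟨((q, x), ⟨t, by
    have h : nm q < Fintype.card (L × Bool) := (Fintype.equivFin (L × Bool) q).2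
    omega⟩), hx, ht⟩

/-- An element of the group of a class. -/
def co (c : C) (x : B) (hx : x ∈ S.Γ c) : Vx S := .inl ⟨(c, x), hx⟩

variable (τ : L → B)

/-- The incidence of elements and paths. -/
def Inc (u : C × B) (w : (L × Bool) × B) : Prop :=
  w.2 ∈ S.Γ (S.src w.1.1) ∧ (if w.1.2 = true then u.1 = S.tgt w.1.1 ∧ u.2 = S.f w.1.1 w.2 + τ w.1.1
    else u.1 = S.src w.1.1 ∧ u.2 = w.2)

/-- The directed edges. -/
def ar : Vx S → Vx S → Prop
  | .inl _, .inl _ => False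
  | .inl u, .inr w => (w.1.2 : ℕ) = 0 ∧ Inc S τ u.1 w.1.1
  | .inr _, .inl _ => False
  | .inr w, .inr w' => (w.1.1 = w'.1.1 ∧ (w'.1.2 : ℕ) = w.1.2 + 1) ∨
      ((w.1.2 : ℕ) = 0 ∧ (w'.1.2 : ℕ) = 0 ∧ w.1.1.2 = w'.1.1.2 ∧ w.1.1.1.1 = w'.1.1.1.1 ∧
        w.1.1.1.2 = false ∧ w'.1.1.1.2 = true)

/-- The graph. -/
def Gr : SimpleGraph (Vx S) where
  Adj u v := ar S τ u v ∨ ar S τ v u
  symm := ⟨fun _ _ h => h.symm⟩
  loopless := ⟨fun u h => by
    have h1 : ar S τ u u := h.elim id id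
    rcases u with u | u
    · exact h1
    · rcases h1 with h1 | h1
      · have := h1.2
        omega
      · have h2 := h1.2.2.2.2.1
        rw [h1.2.2.2.2.2] at h2
        cases h2⟩

theorem pt_inj {q q' : L × Bool} {x x' : B} {t t' : ℕ} {hx : x ∈ S.Γ (S.src q.1)}
    {hx' : x' ∈ S.Γ (S.src q'.1)} {ht : t ≤ nm q + 1} {ht' : t' ≤ nm q' + 1}
    (h : pt S q x t hx ht = pt S q' x' t' hx' ht') : q = q' ∧ x = x' ∧ t = t' := by
  have h1 := congrArg Subtype.val (Sum.inr.inj h)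
  have h2 := Prod.mk.inj h1
  have h3 := Prod.mk.inj h2.1
  exact ⟨h3.1, h3.2, congrArg Fin.val h2.2⟩

theorem exists_pt (w : {z : ((L × Bool) × B) × Fin (Fintype.card (L × Bool) + 1) //
    z.1.2 ∈ S.Γ (S.src z.1.1.1) ∧ (z.2 : ℕ) ≤ nm z.1.1 + 1}) :
    ∃ q x t hx ht, (.inr w : Vx S) = pt S q x t hx ht :=
  ⟨w.1.1.1, w.1.1.2, w.1.2, w.2.1, w.2.2, rfl⟩

variable {τ}

/-- The neighbours of an inner vertex of a pendant path. -/
theorem adj_pt_pos {q : L × Bool} {x : B} {t : ℕ} {hx : x ∈ S.Γ (S.src q.1)} {ht : t ≤ nm q + 1}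
    (h1 : 1 ≤ t) {v : Vx S} (h : (Gr S τ).Adj (pt S q x t hx ht) v) :
    v = pt S q x (t - 1) hx (by omega) ∨ ∃ ht', v = pt S q x (t + 1) hx ht' := by
  rcases v with v | v
  · rcases h with h | h
    · exact h.elim
    · have h2 : t = 0 := h.1
      omega
  · obtain ⟨q', x', t', hx', ht', hv⟩ := exists_pt S v
    rw [hv] at h ⊢
    rcases h with h | h
    · rcases h with ⟨h2, h3⟩ | h2
      · have h4 : (q, x) = (q', x') := h2
        obtain ⟨rfl, rfl⟩ := Prod.mk.inj h4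
        have h5 : t' = t + 1 := h3
        subst h5
        exact Or.inr ⟨ht', rfl⟩
      · have h3 : t = 0 := h2.1
        omega
    · rcases h with ⟨h2, h3⟩ | h2
      · have h4 : (q', x') = (q, x) := h2
        obtain ⟨rfl, rfl⟩ := Prod.mk.inj h4
        have h5 : t = t' + 1 := h3
        left
        refine congrArg Sum.inr (Subtype.ext (Prod.ext rfl (Fin.ext ?_)))
        show t' = t - 1
        omega
      · have h3 : t = 0 := h2.2.1
        omega

theorem adj_succ {q : L × Bool} {x : B} {t : ℕ} {hx : x ∈ S.Γ (S.src q.1)}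
    {ht : t ≤ nm q + 1} {ht' : t + 1 ≤ nm q + 1} :
    (Gr S τ).Adj (pt S q x t hx ht) (pt S q x (t + 1) hx ht') :=
  Or.inl (Or.inl ⟨rfl, rfl⟩)

theorem adj_pred {q : L × Bool} {x : B} {t : ℕ} {hx : x ∈ S.Γ (S.src q.1)}
    {ht : t ≤ nm q + 1} (h1 : 1 ≤ t) :
    (Gr S τ).Adj (pt S q x t hx ht) (pt S q x (t - 1) hx (by omega)) :=
  Or.inr (Or.inl ⟨rfl, by show t = t - 1 + 1; omega⟩)

/-- The other port of a link. -/
def op (q : L × Bool) : L × Bool := (q.1, !q.2)

theorem adj_op {q : L × Bool} {x : B} {hx : x ∈ S.Γ (S.src q.1)} :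
    (Gr S τ).Adj (pt S q x 0 hx (by omega)) (pt S (op q) x 0 hx (by omega)) := by
  obtain ⟨l, b⟩ := q
  cases b with
  | false => exact Or.inl (Or.inr ⟨rfl, rfl, rfl, rfl, rfl, rfl⟩)
  | true => exact Or.inr (Or.inr ⟨rfl, rfl, rfl, rfl, rfl, rfl⟩)

/-- The element of the class at a port. -/
def en (τ : L → B) (q : L × Bool) (x : B) : C × B :=
  if q.2 = true then (S.tgt q.1, S.f q.1 x + τ q.1) else (S.src q.1, x)

theorem en_mem (hτ : ∀ l, τ l ∈ S.Γ (S.tgt l)) {q : L × Bool} {x : B}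
    (hx : x ∈ S.Γ (S.src q.1)) : (en S τ q x).2 ∈ S.Γ (en S τ q x).1 := by
  unfold en
  by_cases h : q.2 = true
  · rw [if_pos h]
    exact (S.Γ _).add_mem (S.hf _ _ hx) (hτ _)
  · rw [if_neg h]
    exact hx

theorem inc_iff {u : C × B} {q : L × Bool} {x : B} (hx : x ∈ S.Γ (S.src q.1)) :
    Inc S τ u (q, x) ↔ u = en S τ q x := by
  unfold Inc en
  by_cases h : q.2 = true
  · rw [if_pos h, if_pos h]
    exact ⟨fun h => Prod.ext h.2.1 h.2.2, fun h => ⟨hx, by rw [h], by rw [h]⟩⟩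
  · rw [if_neg h, if_neg h]
    exact ⟨fun h => Prod.ext h.2.1 h.2.2, fun h => ⟨hx, by rw [h], by rw [h]⟩⟩

theorem adj_co {u : {x : C × B // x.2 ∈ S.Γ x.1}} {q : L × Bool} {x : B}
    {hx : x ∈ S.Γ (S.src q.1)} :
    (Gr S τ).Adj (pt S q x 0 hx (by omega)) (.inl u) ↔ u.1 = en S τ q x := by
  rw [← inc_iff S hx]
  constructor
  · rintro (h | h)
    · exact h.elim
    · exact h.2
  · intro h
    exact Or.inr ⟨rfl, h⟩

/-- The neighbours of a port. -/
theorem adj_pt_zero {q : L × Bool} {x : B} {hx : x ∈ S.Γ (S.src q.1)} {v : Vx S}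
    (h : (Gr S τ).Adj (pt S q x 0 hx (by omega)) v) :
    v = pt S q x 1 hx (by omega) ∨ v = pt S (op q) x 0 hx (by omega) ∨
      ∃ u : {x : C × B // x.2 ∈ S.Γ x.1}, v = .inl u ∧ u.1 = en S τ q x := by
  rcases v with v | v
  · exact Or.inr (Or.inr ⟨v, rfl, (adj_co S).1 h⟩)
  · obtain ⟨q', x', t', hx', ht', hv⟩ := exists_pt S v
    rw [hv] at h ⊢
    rcases h with h | h
    · rcases h with ⟨h2, h3⟩ | h2
      · have h4 : (q, x) = (q', x') := h2
        obtain ⟨rfl, rfl⟩ := Prod.mk.inj h4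
        have h5 : t' = 0 + 1 := h3
        subst h5
        exact Or.inl rfl
      · obtain ⟨-, h3, h4, h5, h6, h7⟩ := h2
        have h3' : t' = 0 := h3
        have h4' : x = x' := h4
        subst h3'
        subst h4'
        have h8 : q' = op q := by
          refine Prod.ext h5.symm ?_
          have h6' : q.2 = false := h6
          have h7' : q'.2 = true := h7
          show q'.2 = !q.2
          rw [h6', h7']
          rfl
        subst h8
        exact Or.inr (Or.inl rfl)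
    · rcases h with ⟨h2, h3⟩ | h2
      · have h5 : 0 = t' + 1 := h3
        omega
      · obtain ⟨h3, -, h4, h5, h6, h7⟩ := h2
        have h3' : t' = 0 := h3
        have h4' : x' = x := h4
        subst h3'
        subst h4'
        have h8 : q' = op q := by
          refine Prod.ext h5 ?_
          have h6' : q'.2 = false := h6
          have h7' : q.2 = true := h7
          show q'.2 = !q.2
          rw [h6', h7']
          rfl
        subst h8
        exact Or.inr (Or.inl rfl)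

end

/-! ### Invariants -/

section inv

variable {V V' : Type} (G : SimpleGraph V) (H : SimpleGraph V')

/-- At most two neighbours. -/
def Two (v : V) : Prop := ∃ w₁ w₂, ∀ u, G.Adj v u → u = w₁ ∨ u = w₂

/-- The distance `n` from the end of a pendant path. -/
def RR : ℕ → V → Prop
  | 0, v => ∃ w, ∀ u, G.Adj v u → u = w
  | 1, v => Two G v ∧ ¬ RR 0 v ∧ ∃ u, G.Adj v u ∧ RR 0 u
  | n + 2, v => Two G v ∧ ¬ RR n v ∧ ∃ u, G.Adj v u ∧ RR (n + 1) u

/-- The start of a pendant path with `n + 2` vertices. -/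
def Pt (n : ℕ) (v : V) : Prop := ¬ Two G v ∧ ∃ u, G.Adj v u ∧ RR G n u

variable {G H}

theorem Two_iso (φ : G ≃g H) (v : V) : Two G v ↔ Two H (φ v) := by
  constructor
  · rintro ⟨w₁, w₂, h⟩
    refine ⟨φ w₁, φ w₂, fun u hu => ?_⟩
    have h1 : G.Adj v (φ.symm u) := by
      rw [← φ.map_adj_iff]
      simpa using hu
    rcases h _ h1 with h2 | h2
    · left
      rw [← h2]
      simp
    · right
      rw [← h2]
      simp
  · rintro ⟨w₁, w₂, h⟩
    refine ⟨φ.symm w₁, φ.symm w₂, fun u hu => ?_⟩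
    rcases h _ (φ.map_adj_iff.2 hu) with h2 | h2
    · left
      rw [← h2]
      simp
    · right
      rw [← h2]
      simp

theorem nb_iso (φ : G ≃g H) (v : V) {P : V → Prop} {Q : V' → Prop} (h : ∀ u, P u ↔ Q (φ u)) :
    (∃ u, G.Adj v u ∧ P u) ↔ ∃ u, H.Adj (φ v) u ∧ Q u := by
  constructor
  · rintro ⟨u, h1, h2⟩
    exact ⟨φ u, φ.map_adj_iff.2 h1, (h u).1 h2⟩
  · rintro ⟨u, h1, h2⟩
    refine ⟨φ.symm u, ?_, ?_⟩
    · rw [← φ.map_adj_iff]
      simpa using h1
    · rw [h]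
      simpa using h2

theorem RR_iso (φ : G ≃g H) : ∀ (n : ℕ) (v : V), RR G n v ↔ RR H n (φ v)
  | 0, v => by
    constructor
    · rintro ⟨w, h⟩
      refine ⟨φ w, fun u hu => ?_⟩
      have h1 : G.Adj v (φ.symm u) := by
        rw [← φ.map_adj_iff]
        simpa using hu
      rw [← h _ h1]
      simp
    · rintro ⟨w, h⟩
      refine ⟨φ.symm w, fun u hu => ?_⟩
      rw [← h _ (φ.map_adj_iff.2 hu)]
      simp
  | 1, v => by
    unfold RR
    rw [Two_iso φ, RR_iso φ 0, nb_iso φ v (RR_iso φ 0)]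
  | n + 2, v => by
    unfold RR
    rw [Two_iso φ, RR_iso φ n, nb_iso φ v (RR_iso φ (n + 1))]

theorem Pt_iso (φ : G ≃g H) (n : ℕ) (v : V) : Pt G n v ↔ Pt H n (φ v) := by
  unfold Pt
  rw [Two_iso φ, nb_iso φ v (RR_iso φ n)]

end inv

section

variable {C L B : Type} [Fintype C] [DecidableEq C] [Fintype L] [DecidableEq L] [AddCommGroup B]
  [Fintype B] [DecidableEq B] (S : LS C L B)

/-- Every element of a class is at two ports. -/
def Deg2 (τ : L → B) : Prop := ∀ u : {x : C × B // x.2 ∈ S.Γ x.1}, ∃ (q q' : L × Bool) (x x' : B)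
  (_ : x ∈ S.Γ (S.src q.1)) (_ : x' ∈ S.Γ (S.src q'.1)), (q, x) ≠ (q', x') ∧
    u.1 = en S τ q x ∧ u.1 = en S τ q' x'

variable {S} {τ : L → B}

theorem not_one_co (h2 : Deg2 S τ) (u : {x : C × B // x.2 ∈ S.Γ x.1}) :
    ¬ RR (Gr S τ) 0 (.inl u) := by
  rintro ⟨w, hw⟩
  obtain ⟨q, q', x, x', hx, hx', h3, h4, h5⟩ := h2 u
  have e1 := hw _ ((adj_co S (hx := hx)).2 h4).symm
  have e2 := hw _ ((adj_co S (hx := hx')).2 h5).symm
  have e3 := pt_inj S (e1.trans e2.symm)
  exact h3 (Prod.ext e3.1 e3.2.1)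

theorem two_pt {q : L × Bool} {x : B} {t : ℕ} {hx : x ∈ S.Γ (S.src q.1)} {ht : t ≤ nm q + 1}
    (h1 : 1 ≤ t) : Two (Gr S τ) (pt S q x t hx ht) := by
  by_cases h2 : t + 1 ≤ nm q + 1
  · refine ⟨pt S q x (t - 1) hx (by omega), pt S q x (t + 1) hx h2, fun u hu => ?_⟩
    rcases adj_pt_pos S h1 hu with h3 | ⟨_, h3⟩
    · exact Or.inl h3
    · exact Or.inr h3
  · refine ⟨pt S q x (t - 1) hx (by omega), pt S q x (t - 1) hx (by omega), fun u hu => ?_⟩
    rcases adj_pt_pos S h1 hu with h3 | ⟨h4, h3⟩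
    · exact Or.inl h3
    · exact absurd h4 h2

theorem not_two_pt (hτ : ∀ l, τ l ∈ S.Γ (S.tgt l)) {q : L × Bool} {x : B}
    {hx : x ∈ S.Γ (S.src q.1)} : ¬ Two (Gr S τ) (pt S q x 0 hx (by omega)) := by
  rintro ⟨w₁, w₂, h⟩
  have e1 := h _ (adj_succ S (ht' := by omega))
  have e2 := h _ (adj_op S)
  have e3 := h (.inl ⟨en S τ q x, en_mem S hτ hx⟩) ((adj_co S).2 rfl)
  have n1 : pt S q x (0 + 1) hx (by omega) ≠ pt S (op q) x 0 hx (by omega) := by
    intro h1
    have := (pt_inj S h1).2.2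
    omega
  have n2 : ∀ {q x t hx ht}, pt S q x t hx ht ≠ .inl ⟨en S τ q x, en_mem S hτ hx⟩ := by
    intro q x t hx ht h1
    cases h1
  have n3 : pt S q x (0 + 1) hx (by omega) ≠ .inl ⟨en S τ q x, en_mem S hτ hx⟩ := by
    intro h1
    cases h1
  have n4 : pt S (op q) x 0 hx (by omega) ≠ .inl ⟨en S τ q x, en_mem S hτ hx⟩ := by
    intro h1
    cases h1
  rcases e1 with e1 | e1 <;> rcases e2 with e2 | e2 <;> rcases e3 with e3 | e3
  · exact n1 (e1.trans e2.symm)
  · exact n1 (e1.trans e2.symm)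
  · exact n3 (e1.trans e3.symm)
  · exact n4 (e2.trans e3.symm)
  · exact n4 (e2.trans e3.symm)
  · exact n3 (e1.trans e3.symm)
  · exact n1 (e1.trans e2.symm)
  · exact n1 (e1.trans e2.symm)

theorem not_one_pt {q : L × Bool} {x : B} {t : ℕ} {hx : x ∈ S.Γ (S.src q.1)} {ht : t ≤ nm q + 1}
    (h1 : t < nm q + 1) : ¬ RR (Gr S τ) 0 (pt S q x t hx ht) := by
  rintro ⟨w, h⟩
  have e1 := h _ (adj_succ S (ht' := by omega))
  by_cases h2 : 1 ≤ t
  · have e2 := h _ (adj_pred S h2)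
    have := (pt_inj S (e1.trans e2.symm)).2.2
    omega
  · obtain rfl : t = 0 := by omega
    have e2 := h _ (adj_op S)
    have := (pt_inj S (e1.trans e2.symm)).2.2
    omega

/-- The vertices at distance `n` from the end. -/
def AtD (S : LS C L B) (n : ℕ) (v : Vx S) : Prop :=
  ∃ q x t hx ht, v = pt S q x t hx ht ∧ 1 ≤ t ∧ t + n = nm q + 1

theorem atD_succ {n : ℕ} {v : Vx S} (h : AtD S (n + 1) v) :
    ∃ u, (Gr S τ).Adj v u ∧ AtD S n u := by
  obtain ⟨q, x, t, hx, ht, rfl, h1, h2⟩ := h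
  exact ⟨pt S q x (t + 1) hx (by omega), adj_succ S, q, x, t + 1, hx, by omega, rfl, by omega,
    by omega⟩

theorem atD_nb (hτ : ∀ l, τ l ∈ S.Γ (S.tgt l)) {n : ℕ} {v u : Vx S}
    (h2 : Two (Gr S τ) v) (h3 : (Gr S τ).Adj v u) (h4 : AtD S n u) :
    AtD S (n + 1) v ∨ (1 ≤ n ∧ AtD S (n - 1) v) := by
  obtain ⟨q, x, t, hx, ht, rfl, h5, h6⟩ := h4
  rcases adj_pt_pos S h5 h3.symm with h7 | ⟨h8, h7⟩
  · left
    subst h7
    by_cases h8 : 1 ≤ t - 1
    · exact ⟨q, x, t - 1, hx, by omega, rfl, h8, by omega⟩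
    · exfalso
      obtain rfl : t = 1 := by omega
      exact not_two_pt hτ h2
  · right
    exact ⟨by omega, q, x, t + 1, hx, h8, h7, by omega, by omega⟩

theorem atD_unique {n m : ℕ} {v : Vx S} (h : AtD S n v) (h' : AtD S m v) : n = m := by
  obtain ⟨q, x, t, hx, ht, rfl, h1, h2⟩ := h
  obtain ⟨q', x', t', hx', ht', h3, h4, h5⟩ := h'
  obtain ⟨rfl, -, rfl⟩ := pt_inj S h3
  omega

theorem atD_two {n : ℕ} {v : Vx S} (h : AtD S n v) : Two (Gr S τ) v := by
  obtain ⟨q, x, t, hx, ht, rfl, h1, h2⟩ := h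
  exact two_pt h1

theorem RR_iff (h2 : Deg2 S τ) (hτ : ∀ l, τ l ∈ S.Γ (S.tgt l)) :
    ∀ (n : ℕ) (v : Vx S), RR (Gr S τ) n v ↔ AtD S n v
  | 0, v => by
    constructor
    · intro h
      rcases v with v | v
      · exact absurd h (not_one_co h2 v)
      · obtain ⟨q, x, t, hx, ht, hv⟩ := exists_pt S v
        rw [hv] at h ⊢
        by_cases h3 : t < nm q + 1
        · exact absurd h (not_one_pt h3)
        · exact ⟨q, x, t, hx, ht, rfl, by omega, by omega⟩
    · rintro ⟨q, x, t, hx, ht, rfl, h3, h4⟩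
      refine ⟨pt S q x (t - 1) hx (by omega), fun u hu => ?_⟩
      rcases adj_pt_pos S h3 hu with h5 | ⟨h6, h5⟩
      · exact h5
      · omega
  | 1, v => by
    have ih := RR_iff h2 hτ 0
    unfold RR
    simp only [ih]
    constructor
    · rintro ⟨h3, h4, u, h5, h6⟩
      rcases atD_nb hτ h3 h5 h6 with h7 | h7
      · exact h7
      · omega
    · intro h3
      refine ⟨atD_two h3, fun h4 => ?_, atD_succ h3⟩
      have := atD_unique h3 h4
      omega
  | n + 2, v => by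
    have ih := RR_iff h2 hτ n
    have ih' := RR_iff h2 hτ (n + 1)
    unfold RR
    simp only [ih, ih']
    constructor
    · rintro ⟨h3, h4, u, h5, h6⟩
      rcases atD_nb hτ h3 h5 h6 with h7 | ⟨-, h7⟩
      · exact h7
      · exact absurd h7 h4
    · intro h3
      refine ⟨atD_two h3, fun h4 => ?_, atD_succ h3⟩
      have := atD_unique h3 h4
      omega

/-- The ports are recognised. -/
theorem Pt_iff (h2 : Deg2 S τ) (hτ : ∀ l, τ l ∈ S.Γ (S.tgt l)) (n : ℕ) (v : Vx S) :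
    Pt (Gr S τ) n v ↔ ∃ q x hx, v = pt S q x 0 hx (by omega) ∧ nm q = n := by
  unfold Pt
  simp only [RR_iff h2 hτ]
  constructor
  · rintro ⟨h3, u, h4, q, x, t, hx, ht, rfl, h5, h6⟩
    rcases adj_pt_pos S h5 h4.symm with h7 | ⟨h8, h7⟩
    · by_cases h8 : 1 ≤ t - 1
      · subst h7
        exact absurd (two_pt h8) h3
      · obtain rfl : t = 1 := by omega
        exact ⟨q, x, hx, h7, by omega⟩
    · subst h7
      exact absurd (two_pt (by omega)) h3
  · rintro ⟨q, x, hx, rfl, rfl⟩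
    exact ⟨not_two_pt hτ, pt S q x 1 hx (by omega), adj_succ S, q, x, 1, hx, by omega, rfl, le_rfl,
      by omega⟩

theorem co_iff (h2 : Deg2 S τ) (hτ : ∀ l, τ l ∈ S.Γ (S.tgt l)) (v : Vx S) :
    (∃ u, v = .inl u) ↔ ∀ n, ¬ RR (Gr S τ) n v ∧ ¬ Pt (Gr S τ) n v := by
  constructor
  · rintro ⟨u, rfl⟩ n
    rw [RR_iff h2 hτ, Pt_iff h2 hτ]
    constructor
    · rintro ⟨q, x, t, hx, ht, h, -⟩
      cases h
    · rintro ⟨q, x, hx, h, -⟩
      cases h
  · intro h
    rcases v with v | v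
    · exact ⟨v, rfl⟩
    · exfalso
      obtain ⟨q, x, t, hx, ht, hv⟩ := exists_pt S v
      rw [hv] at h
      by_cases h3 : 1 ≤ t
      · apply (h (nm q + 1 - t)).1
        rw [RR_iff h2 hτ]
        exact ⟨q, x, t, hx, ht, rfl, h3, by omega⟩
      · obtain rfl : t = 0 := by omega
        apply (h (nm q)).2
        rw [Pt_iff h2 hτ]
        exact ⟨q, x, hx, rfl, rfl⟩

/-- An isomorphism gives a global solution. -/
theorem solution_of_iso {τ' : L → B} (h2 : Deg2 S τ) (hτ : ∀ l, τ l ∈ S.Γ (S.tgt l))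
    (h2' : Deg2 S τ') (hτ' : ∀ l, τ' l ∈ S.Γ (S.tgt l)) (h0 : τ = 0) (φ : Gr S τ ≃g Gr S τ') :
    ∃ a : C → B, ∀ l, a (S.src l) ∈ S.Γ (S.src l) ∧ a (S.tgt l) = S.f l (a (S.src l)) + τ' l := by
  have hco : ∀ u : {x : C × B // x.2 ∈ S.Γ x.1}, ∃ u' : {x : C × B // x.2 ∈ S.Γ x.1},
      φ (.inl u) = .inl u' := by
    intro u
    rw [co_iff h2' hτ']
    have h3 := (co_iff h2 hτ (.inl u)).1 ⟨u, rfl⟩
    intro n
    rw [← RR_iso φ, ← Pt_iso φ]
    exact h3 n
  choose g hg using hco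
  have hpt : ∀ (q : L × Bool) (x : B) (hx : x ∈ S.Γ (S.src q.1)), ∃ (x' : B)
      (hx' : x' ∈ S.Γ (S.src q.1)), φ (pt S q x 0 hx (by omega)) = pt S q x' 0 hx' (by omega) := by
    intro q x hx
    have h3 : Pt (Gr S τ') (nm q) (φ (pt S q x 0 hx (by omega))) := by
      rw [← Pt_iso φ, Pt_iff h2 hτ]
      exact ⟨q, x, hx, rfl, rfl⟩
    rw [Pt_iff h2' hτ'] at h3
    obtain ⟨q', x', hx', h4, h5⟩ := h3
    have h6 := nm_inj h5
    subst h6
    exact ⟨x', hx', h4⟩
  refine ⟨fun c => (g ⟨(c, 0), (S.Γ c).zero_mem⟩).1.2, fun l => ?_⟩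
  obtain ⟨x', hx', h3⟩ := hpt (l, false) 0 (S.Γ _).zero_mem
  obtain ⟨x'', hx'', h4⟩ := hpt (l, true) 0 (S.Γ _).zero_mem
  have h5 : (Gr S τ).Adj (pt S (l, false) 0 0 (S.Γ _).zero_mem (by omega))
      (pt S (l, true) 0 0 (S.Γ _).zero_mem (by omega)) :=
    adj_op S (q := (l, false)) (hx := (S.Γ _).zero_mem)
  rw [← φ.map_adj_iff, h3, h4] at h5
  have h6 : x' = x'' := by
    rcases adj_pt_zero S h5 with h7 | h7 | ⟨u, h7, -⟩
    · have := (pt_inj S h7).2.2
      omega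
    · exact ((pt_inj S h7).2.1).symm
    · cases h7
  subst h6
  have h7 : (Gr S τ).Adj (pt S (l, false) 0 0 (S.Γ _).zero_mem (by omega))
      (.inl ⟨(S.src l, 0), (S.Γ _).zero_mem⟩) := (adj_co S (q := (l, false))
        (hx := (S.Γ _).zero_mem)).2 rfl
  rw [← φ.map_adj_iff, h3, hg, adj_co S] at h7
  have h8 : (Gr S τ).Adj (pt S (l, true) 0 0 (S.Γ _).zero_mem (by omega))
      (.inl ⟨(S.tgt l, 0), (S.Γ _).zero_mem⟩) := by
    rw [adj_co S (q := (l, true)) (hx := (S.Γ _).zero_mem)]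
    show (S.tgt l, (0 : B)) = (S.tgt l, S.f l 0 + τ l)
    rw [map_zero, h0, zero_add]
    rfl
  rw [← φ.map_adj_iff, h4, hg, adj_co S] at h8
  have e1 : (g ⟨(S.src l, 0), (S.Γ _).zero_mem⟩).1.2 = x' := congrArg Prod.snd h7
  have e2 : (g ⟨(S.tgt l, 0), (S.Γ _).zero_mem⟩).1.2 = S.f l x' + τ' l := congrArg Prod.snd h8
  dsimp only
  rw [e1, e2]
  exact ⟨hx', rfl⟩

/-- The degrees. -/
theorem degree_le (h3 : ∀ u : {x : C × B // x.2 ∈ S.Γ x.1}, ∃ s : Finset ((L × Bool) × B),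
      s.card ≤ 3 ∧ ∀ w, Inc S τ u.1 w → w ∈ s) (v : Vx S) :
    ((Gr S τ).neighborSet v).ncard ≤ 3 := by
  classical
  rcases v with u | v
  · obtain ⟨s, hs, h⟩ := h3 u
    let g : (L × Bool) × B → Vx S := fun w => if hw : w.2 ∈ S.Γ (S.src w.1.1) then
      pt S w.1 w.2 0 hw (by omega) else .inl u
    have h4 : (Gr S τ).neighborSet (.inl u) ⊆ (s.image g : Finset (Vx S)) := by
      intro v hv
      rcases v with v | v
      · rcases hv with hv | hv
        · exact hv.elim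
        · exact hv.elim
      · have h5 : (v.1.2 : ℕ) = 0 ∧ Inc S τ u.1 v.1.1 := by
          rcases hv with hv | hv
          · exact hv
          · exact hv.elim
        rw [Finset.mem_coe, mem_image]
        refine ⟨v.1.1, h _ h5.2, ?_⟩
        show (if hw : v.1.1.2 ∈ S.Γ (S.src v.1.1.1.1) then
          pt S v.1.1.1 v.1.1.2 0 hw (by omega) else .inl u) = _
        rw [dif_pos v.2.1]
        unfold pt
        congr 2
        exact Prod.ext rfl (Fin.ext h5.1.symm)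
    refine (Set.ncard_le_ncard h4 (Finset.finite_toSet _)).trans ?_
    rw [Set.ncard_coe_finset]
    exact card_image_le.trans hs
  · obtain ⟨q, x, t, hx, ht, hv⟩ := exists_pt S v
    rw [hv]
    by_cases h1 : 1 ≤ t
    · have h4 : (Gr S τ).neighborSet (pt S q x t hx ht) ⊆
          (({pt S q x (t - 1) hx (by omega)} ∪ (if h : t + 1 ≤ nm q + 1 then
            {pt S q x (t + 1) hx h} else ∅) : Finset (Vx S)) : Set (Vx S)) := by
        intro v hv
        rw [Finset.mem_coe, mem_union]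
        rcases adj_pt_pos S h1 hv with h5 | ⟨h6, h5⟩
        · left
          exact mem_singleton.2 h5
        · right
          rw [dif_pos h6]
          exact mem_singleton.2 h5
      refine (Set.ncard_le_ncard h4 (Finset.finite_toSet _)).trans ?_
      rw [Set.ncard_coe_finset]
      refine (card_union_le _ _).trans ?_
      rw [card_singleton]
      split_ifs
      · rw [card_singleton]
        omega
      · rw [card_empty]
        omega
    · obtain rfl : t = 0 := by omega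
      have h4 : (Gr S τ).neighborSet (pt S q x 0 hx ht) ⊆
          (({pt S q x 1 hx (by omega)} ∪ {pt S (op q) x 0 hx (by omega)} ∪
            (if h : (en S τ q x).2 ∈ S.Γ (en S τ q x).1 then
            {.inl ⟨en S τ q x, h⟩} else ∅) : Finset (Vx S)) : Set (Vx S)) := by
        intro v hv
        rw [Finset.mem_coe, mem_union, mem_union]
        rcases adj_pt_zero S hv with h5 | h5 | ⟨u, h5, h6⟩
        · exact Or.inl (Or.inl (mem_singleton.2 h5))
        · exact Or.inl (Or.inr (mem_singleton.2 h5))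
        · right
          have h7 : (en S τ q x).2 ∈ S.Γ (en S τ q x).1 := by
            rw [← h6]
            exact u.2
          rw [dif_pos h7, mem_singleton, h5]
          exact congrArg Sum.inl (Subtype.ext h6)
      refine (Set.ncard_le_ncard h4 (Finset.finite_toSet _)).trans ?_
      rw [Set.ncard_coe_finset]
      refine (card_union_le _ _).trans ?_
      have h5 := card_union_le ({pt S q x 1 hx (by omega)} : Finset (Vx S))
        {pt S (op q) x 0 hx (by omega)}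
      rw [card_singleton, card_singleton] at h5
      have h6 : (if h : (en S τ q x).2 ∈ S.Γ (en S τ q x).1 then
            ({.inl ⟨en S τ q x, h⟩} : Finset (Vx S)) else ∅).card ≤ 1 := by
        split_ifs
        · rw [card_singleton]
        · rw [card_empty]
          omega
      omega

/-! ### The action -/

variable {X Lt : Type} [AddCommGroup X] [SemilatticeSup Lt] [OrderBot Lt] (Y : Sys X Lt)

/-- The data of an action. -/
structure AD (S : LS C L B) (τ : L → B) (Y : Sys X Lt) where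
  ψ : C → X → B
  add : ∀ c x y, ψ c (x + y) = ψ c x + ψ c y
  mem : ∀ c x, ψ c x ∈ S.Γ c
  lv : C → Lt
  size : ∀ c, Y.size (lv c) ≤ 1
  inv : ∀ c, ∀ n ∈ Y.N (lv c), ψ c n = 0
  comp : ∀ l, ∀ x ∈ Y.Sol (lv (S.tgt l) ⊔ lv (S.src l)),
    ψ (S.tgt l) x = S.f l (ψ (S.src l) x) + τ l

variable {Y} (a : AD S τ Y)

/-- The bijections. -/
def AD.bb (x : X) : Vx S ≃ Vx S where
  toFun
    | .inl u => .inl ⟨(u.1.1, u.1.2 + a.ψ u.1.1 x), (S.Γ _).add_mem u.2 (a.mem _ _)⟩
    | .inr w => .inr ⟨((w.1.1.1, w.1.1.2 + a.ψ (S.src w.1.1.1.1) x), w.1.2),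
        (S.Γ _).add_mem w.2.1 (a.mem _ _), w.2.2⟩
  invFun
    | .inl u => .inl ⟨(u.1.1, u.1.2 - a.ψ u.1.1 x), (S.Γ _).sub_mem u.2 (a.mem _ _)⟩
    | .inr w => .inr ⟨((w.1.1.1, w.1.1.2 - a.ψ (S.src w.1.1.1.1) x), w.1.2),
        (S.Γ _).sub_mem w.2.1 (a.mem _ _), w.2.2⟩
  left_inv v := by
    rcases v with u | w
    · show Sum.inl _ = Sum.inl _
      congr 1
      refine Subtype.ext (Prod.ext rfl ?_)
      show u.1.2 + a.ψ u.1.1 x - a.ψ u.1.1 x = _
      rw [add_sub_cancel_right]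
    · show Sum.inr _ = Sum.inr _
      congr 1
      refine Subtype.ext (Prod.ext (Prod.ext rfl ?_) rfl)
      show w.1.1.2 + a.ψ (S.src w.1.1.1.1) x - a.ψ (S.src w.1.1.1.1) x = _
      rw [add_sub_cancel_right]
  right_inv v := by
    rcases v with u | w
    · show Sum.inl _ = Sum.inl _
      congr 1
      refine Subtype.ext (Prod.ext rfl ?_)
      show u.1.2 - a.ψ u.1.1 x + a.ψ u.1.1 x = _
      rw [sub_add_cancel]
    · show Sum.inr _ = Sum.inr _
      congr 1
      refine Subtype.ext (Prod.ext (Prod.ext rfl ?_) rfl)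
      show w.1.1.2 - a.ψ (S.src w.1.1.1.1) x + a.ψ (S.src w.1.1.1.1) x = _
      rw [sub_add_cancel]

/-- The level of a vertex. -/
def AD.lvv : Vx S → Lt
  | .inl u => a.lv u.1.1
  | .inr w => a.lv (S.src w.1.1.1.1)

theorem AD.ar_bb (u v : Vx S) {x : X} (hx : x ∈ Y.Sol (a.lvv u ⊔ a.lvv v)) :
    ar S 0 u v ↔ ar S τ (a.bb x u) (a.bb x v) := by
  rcases u with u | w <;> rcases v with v | w'
  · exact Iff.rfl
  · show (w'.1.2 : ℕ) = 0 ∧ Inc S 0 u.1 w'.1.1 ↔ (w'.1.2 : ℕ) = 0 ∧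
      Inc S τ (u.1.1, u.1.2 + a.ψ u.1.1 x) (w'.1.1.1, w'.1.1.2 + a.ψ (S.src w'.1.1.1.1) x)
    refine and_congr_right fun _ => ?_
    unfold Inc
    have h1 : w'.1.1.2 ∈ S.Γ (S.src w'.1.1.1.1) := w'.2.1
    have h2 : w'.1.1.2 + a.ψ (S.src w'.1.1.1.1) x ∈ S.Γ (S.src w'.1.1.1.1) :=
      (S.Γ _).add_mem h1 (a.mem _ _)
    by_cases hb : w'.1.1.1.2 = true
    · rw [if_pos hb]
      dsimp only
      rw [if_pos hb]
      constructor
      · rintro ⟨-, h3, h4⟩
        refine ⟨h2, h3, ?_⟩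
        have h5 := a.comp w'.1.1.1.1 x (by
          have h6 : x ∈ Y.Sol (a.lv u.1.1 ⊔ a.lv (S.src w'.1.1.1.1)) := hx
          rwa [h3] at h6)
        rw [h3, h5, h4, map_add]
        show S.f w'.1.1.1.1 w'.1.1.2 + 0 + _ = _
        abel
      · rintro ⟨-, h3, h4⟩
        refine ⟨h1, h3, ?_⟩
        have h5 := a.comp w'.1.1.1.1 x (by
          have h6 : x ∈ Y.Sol (a.lv u.1.1 ⊔ a.lv (S.src w'.1.1.1.1)) := hx
          rwa [h3] at h6)
        rw [h3, h5, map_add] at h4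
        show u.1.2 = S.f w'.1.1.1.1 w'.1.1.2 + 0
        have h7 : u.1.2 + (S.f w'.1.1.1.1 (a.ψ (S.src w'.1.1.1.1) x) + τ w'.1.1.1.1) =
          S.f w'.1.1.1.1 w'.1.1.2 + 0 + (S.f w'.1.1.1.1 (a.ψ (S.src w'.1.1.1.1) x) +
            τ w'.1.1.1.1) := by
          rw [h4]
          abel
        exact add_right_cancel h7
    · rw [if_neg hb]
      dsimp only
      rw [if_neg hb]
      constructor
      · rintro ⟨-, h3, h4⟩
        exact ⟨h2, h3, by rw [h3, h4]⟩
      · rintro ⟨-, h3, h4⟩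
        refine ⟨h1, h3, ?_⟩
        rw [h3] at h4
        exact add_right_cancel h4
  · exact Iff.rfl
  · show ((w.1.1 = w'.1.1 ∧ (w'.1.2 : ℕ) = w.1.2 + 1) ∨
      ((w.1.2 : ℕ) = 0 ∧ (w'.1.2 : ℕ) = 0 ∧ w.1.1.2 = w'.1.1.2 ∧ w.1.1.1.1 = w'.1.1.1.1 ∧
        w.1.1.1.2 = false ∧ w'.1.1.1.2 = true)) ↔
      (((w.1.1.1, w.1.1.2 + a.ψ (S.src w.1.1.1.1) x) =
        (w'.1.1.1, w'.1.1.2 + a.ψ (S.src w'.1.1.1.1) x) ∧ (w'.1.2 : ℕ) = w.1.2 + 1) ∨
      ((w.1.2 : ℕ) = 0 ∧ (w'.1.2 : ℕ) = 0 ∧ w.1.1.2 + a.ψ (S.src w.1.1.1.1) x =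
        w'.1.1.2 + a.ψ (S.src w'.1.1.1.1) x ∧ w.1.1.1.1 = w'.1.1.1.1 ∧
        w.1.1.1.2 = false ∧ w'.1.1.1.2 = true))
    refine or_congr (and_congr_left fun _ => ?_) (and_congr_right fun _ => and_congr_right fun _ =>
      ?_)
    · constructor
      · intro h
        rw [h]
      · intro h
        obtain ⟨h1, h2⟩ := Prod.mk.inj h
        rw [h1] at h2
        exact Prod.ext h1 (add_right_cancel h2)
    · constructor
      · rintro ⟨h1, h2, h3⟩
        exact ⟨by rw [h1, h2], h2, h3⟩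
      · rintro ⟨h1, h2, h3⟩
        rw [h2] at h1
        exact ⟨add_right_cancel h1, h2, h3⟩

/-- The local isomorphisms. -/
def AD.act : Act Y (Gr S 0).Adj (Gr S τ).Adj where
  b := a.bb
  lv := a.lvv
  lv' := a.lvv
  c := 1
  inv x n v hn := by
    rcases v with u | w
    · show Sum.inl _ = Sum.inl _
      congr 1
      refine Subtype.ext (Prod.ext rfl ?_)
      show u.1.2 + a.ψ u.1.1 (x + n) = u.1.2 + a.ψ u.1.1 x
      rw [a.add, a.inv _ n hn, add_zero]
    · show Sum.inr _ = Sum.inr _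
      congr 1
      refine Subtype.ext (Prod.ext (Prod.ext rfl ?_) rfl)
      show w.1.1.2 + a.ψ (S.src w.1.1.1.1) (x + n) = w.1.1.2 + a.ψ (S.src w.1.1.1.1) x
      rw [a.add, a.inv _ n hn, add_zero]
  lev x v := by
    rcases v with u | w <;> rfl
  size v := by
    rcases v with u | w <;> exact a.size _
  iso u v x hx := by
    refine or_congr (a.ar_bb u v hx) (a.ar_bb v u ?_)
    rw [sup_comm]
    exact hx

theorem AD.torsor : (a.act).Torsor := by
  have hz : ∀ c, a.ψ c 0 = 0 := by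
    intro c
    have h := a.add c 0 0
    rw [add_zero] at h
    exact left_eq_add.1 h
  have h0 : ∀ v, a.bb 0 v = v := by
    intro v
    rcases v with u | w
    · show Sum.inl _ = Sum.inl _
      congr 1
      refine Subtype.ext (Prod.ext rfl ?_)
      show u.1.2 + a.ψ u.1.1 0 = u.1.2
      rw [hz, add_zero]
    · show Sum.inr _ = Sum.inr _
      congr 1
      refine Subtype.ext (Prod.ext (Prod.ext rfl ?_) rfl)
      show w.1.1.2 + a.ψ (S.src w.1.1.1.1) 0 = w.1.1.2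
      rw [hz, add_zero]
  intro x y v
  show a.bb (x + y) v = a.bb x ((a.bb 0).symm (a.bb y v))
  have h1 : (a.bb 0).symm (a.bb y v) = a.bb y v := by
    rw [Equiv.symm_apply_eq, h0]
  rw [h1]
  rcases v with u | w
  · show Sum.inl _ = Sum.inl _
    congr 1
    refine Subtype.ext (Prod.ext rfl ?_)
    show u.1.2 + a.ψ u.1.1 (x + y) = u.1.2 + a.ψ u.1.1 y + a.ψ u.1.1 x
    rw [a.add]
    abel
  · show Sum.inr _ = Sum.inr _
    congr 1
    refine Subtype.ext (Prod.ext (Prod.ext rfl ?_) rfl)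
    show w.1.1.2 + a.ψ (S.src w.1.1.1.1) (x + y) =
      w.1.1.2 + a.ψ (S.src w.1.1.1.1) y + a.ψ (S.src w.1.1.1.1) x
    rw [a.add]
    abel

end

end Pool.Agent.K4H90.Cub
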