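import Pool.Agent.K4H90.Cub.Deg
import Pool.Agent.K4H90.AllF.Main
import Pool.Agent.K4H90.AllP.Bip

/-!
# Graphs of maximum degree 3 for the invertible-map test over all fields
-/

set_option autoImplicit false
set_option linter.unusedSectionVars false

namespace Pool.Agent.K4H90.Cub

open Finset Pool.Agent.TH658.Dg Pool.Agent.TH658.Sos Pool.Agent.K4H90.AllF Pool.Agent.K4H90.AllP

/-! ### The number of vertices -/

theorem card_Vx {C L B : Type} [Fintype C] [DecidableEq C] [Fintype L] [DecidableEq L]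
    [AddCommGroup B] [Fintype B] [DecidableEq B] (S : LS C L B) :
    Fintype.card (Vx S) ≤ Fintype.card C * Fintype.card B +
      (Fintype.card L * 2 * Fintype.card B) * (Fintype.card L * 2 + 1) := by
  classical
  have h1 : Fintype.card (Vx S) = Fintype.card {x : C × B // x.2 ∈ S.Γ x.1} +
      Fintype.card {z : ((L × Bool) × B) × Fin (Fintype.card (L × Bool) + 1) //
        z.1.2 ∈ S.Γ (S.src z.1.1.1) ∧ (z.2 : ℕ) ≤ nm z.1.1 + 1} := by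
    rw [← Fintype.card_sum]
  rw [h1]
  refine Nat.add_le_add ?_ ?_
  · refine (Fintype.card_subtype_le _).trans ?_
    rw [Fintype.card_prod]
  · refine (Fintype.card_subtype_le _).trans ?_
    rw [Fintype.card_prod, Fintype.card_prod, Fintype.card_prod, Fintype.card_bool,
      Fintype.card_fin]

theorem card_Nd (N M : ℕ) : Fintype.card (Nd N M) = 2 * ((N + 1) * (M + 1)) := by
  rw [Fintype.card_prod, Fintype.card_prod, Fintype.card_bool, Fintype.card_fin, Fintype.card_fin]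

theorem card_Cc (N M s : ℕ) :
    Fintype.card (Cc N M s) = 2 * ((N + 1) * (M + 1)) * (3 * (s + 1) + 1) := by
  rw [Fintype.card_prod, card_Nd, Fintype.card_option, Fintype.card_prod, Fintype.card_fin,
    Fintype.card_fin]

theorem card_Lc (N M s : ℕ) :
    Fintype.card (Lc N M s) = (N + 1) * (M + 1) * (6 * s + 9) := by
  simp only [Fintype.card_sum, Fintype.card_prod, Fintype.card_fin, Fintype.card_bool]
  ring

theorem bound (k K n m s ℓ n₁ n₂ v : ℕ) (hk : 1 ≤ k) (hK : K = 4 * k + 2) (hℓ : 2 ^ ℓ ≤ 4 * k)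
    (hs : s = ℓ + 1) (h1 : n₁ = n₂ + 2 ^ ℓ) (h2 : n₁ + n₂ = (2 + 2) ^ ℓ) (hn : n + 1 = n₁ + K)
    (hm : m + 1 = n₂ + K + 1)
    (hv : v ≤ (2 * ((n + 1) * (m + 1)) * (3 * (s + 1) + 1)) * (2 ^ s * 2 ^ s) +
      (((n + 1) * (m + 1) * (6 * s + 9)) * 2 * (2 ^ s * 2 ^ s)) *
        (((n + 1) * (m + 1) * (6 * s + 9)) * 2 + 1)) :
    v ≤ 10 ^ 11 * k ^ 12 := by
  have e1 : 2 ^ s ≤ 8 * k := by
    rw [hs, pow_succ]
    omega
  have e2 : s ≤ 4 * k := by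
    have h3 : ℓ < 2 ^ ℓ := Nat.lt_two_pow_self
    omega
  have e3 : (2 + 2) ^ ℓ ≤ 16 * k ^ 2 := by
    have h3 : (2 + 2) ^ ℓ = 2 ^ ℓ * 2 ^ ℓ := by
      rw [← mul_pow]
      norm_num
    rw [h3]
    exact (Nat.mul_le_mul hℓ hℓ).trans (le_of_eq (by ring))
  have e0 : k ≤ k ^ 2 := by nlinarith
  generalize (2 + 2) ^ ℓ = Z at h2 e3
  generalize 2 ^ ℓ = Y at h1 hℓ
  have e4 : n + 1 ≤ 16 * k ^ 2 := by omega
  have e5 : m + 1 ≤ 15 * k ^ 2 := by omega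
  have e6 : (n + 1) * (m + 1) ≤ 240 * k ^ 4 :=
    (Nat.mul_le_mul e4 e5).trans (le_of_eq (by ring))
  have e7 : 6 * s + 9 ≤ 33 * k := by omega
  have e8 : (n + 1) * (m + 1) * (6 * s + 9) ≤ 7920 * k ^ 5 :=
    (Nat.mul_le_mul e6 e7).trans (le_of_eq (by ring))
  have e9 : 2 ^ s * 2 ^ s ≤ 64 * k ^ 2 := (Nat.mul_le_mul e1 e1).trans (le_of_eq (by ring))
  have e10 : 2 * ((n + 1) * (m + 1)) * (3 * (s + 1) + 1) ≤ (n + 1) * (m + 1) * (6 * s + 9) := by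
    have h3 : 2 * ((n + 1) * (m + 1)) * (3 * (s + 1) + 1) =
      (n + 1) * (m + 1) * (2 * (3 * (s + 1) + 1)) := by ring
    rw [h3]
    exact Nat.mul_le_mul_left _ (by omega)
  have e11 : 1 ≤ k ^ 5 := Nat.one_le_pow _ _ hk
  generalize (n + 1) * (m + 1) * (6 * s + 9) = E at e8 e10 hv
  generalize 2 ^ s * 2 ^ s = Q at e9 hv
  generalize 2 * ((n + 1) * (m + 1)) * (3 * (s + 1) + 1) = C at e10 hv
  have f1 : C * Q ≤ 7920 * k ^ 5 * (64 * k ^ 2) := Nat.mul_le_mul (e10.trans e8) e9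
  have f2 : E * 2 * Q * (E * 2 + 1) ≤ (7920 * k ^ 5 * 2) * (64 * k ^ 2) * (15841 * k ^ 5) := by
    refine Nat.mul_le_mul (Nat.mul_le_mul (Nat.mul_le_mul_right _ e8) e9) ?_
    omega
  have f3 : 7920 * k ^ 5 * (64 * k ^ 2) ≤ 7920 * k ^ 5 * (64 * k ^ 2) * k ^ 5 :=
    Nat.le_mul_of_pos_right _ (by omega)
  have f4 : 7920 * k ^ 5 * (64 * k ^ 2) * k ^ 5 +
      (7920 * k ^ 5 * 2) * (64 * k ^ 2) * (15841 * k ^ 5) = 16059479040 * k ^ 12 := by
    ring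
  have f5 : 16059479040 * k ^ 12 ≤ 10 ^ 11 * k ^ 12 := Nat.mul_le_mul_right _ (by norm_num)
  omega

/-- The graphs. -/
theorem exists_cubic (k : ℕ) (hk : 1 ≤ k) :
    ∃ (V : Type) (_ : Fintype V) (G G' : SimpleGraph V), Fintype.card V ≤ 10 ^ 11 * k ^ 12 ∧
      (∀ v, (G.neighborSet v).ncard ≤ 3) ∧ (∀ v, (G'.neighborSet v).ncard ≤ 3) ∧
      IsEmpty (G ≃g G') ∧ IMEquiv 1 k G.Adj G'.Adj := by
  obtain ⟨K, hK⟩ : ∃ K, K = 4 * k + 2 := ⟨_, rfl⟩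
  obtain ⟨ℓ, hℓ⟩ : ∃ ℓ, ℓ = Nat.log 2 (2 * k) + 1 := ⟨_, rfl⟩
  have hℓ1 : 2 * k < 2 ^ ℓ := by
    rw [hℓ]
    exact Nat.lt_pow_succ_log_self (by norm_num) _
  have hℓ2 : 2 ^ ℓ ≤ 4 * k := by
    have h1 := Nat.pow_log_le_self 2 (x := 2 * k) (by omega)
    rw [hℓ, pow_succ]
    omega
  obtain ⟨s, hs⟩ : ∃ s, s = ℓ + 1 := ⟨_, rfl⟩
  have : Fact (Nat.Prime 2) := ⟨Nat.prime_two⟩
  obtain ⟨n₁, n₂, hn1, hn2, hn3⟩ : ∃ n₁ n₂ : ℕ, n₁ = n₂ + 2 ^ ℓ ∧ n₁ + n₂ = (2 + 2) ^ ℓ ∧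
      0 < n₁ := by
    obtain ⟨d, D, hD1, hD2, hD3⟩ := exists_des (K := ZMod 2) 2 ℓ
    exact ⟨_, _, hD2, hD3, by rw [hD2]; positivity⟩
  obtain ⟨n, hn⟩ : ∃ n, n + 1 = n₁ + K := ⟨n₁ + K - 1, by omega⟩
  obtain ⟨m, hm⟩ : ∃ m, m + 1 = n₂ + K + 1 := ⟨n₂ + K, rfl⟩
  have hKn : K < n + 1 := by omega
  have hKm : K < m + 1 := by omega
  let A : Type := ZMod (2 ^ s)
  have : NeZero (2 ^ s) := ⟨pow_ne_zero _ (by norm_num)⟩
  obtain ⟨d, hd⟩ : ∃ d : A, d = 2 ^ ℓ := ⟨_, rfl⟩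
  have hs1 : 1 ≤ s := by omega
  have hd0 : d ≠ 0 := by
    have h1 := two_pow_ne s hs1
    have h2 : s - 1 = ℓ := by omega
    rw [h2] at h1
    rw [hd]
    exact h1
  have h2s : (2 : A) ^ s = 0 := two_pow_zero s
  have h2z : ∀ z : A, 2 * z = 0 → z = 0 ∨ z = 2 ^ (s - 1) := two_mul_zero s hs1
  have hτ := tc_mem (A := A) n m s d
  have h0 : (0 : Lc n m s → A × A) = tc n m s 0 := tc_zero.symm
  refine ⟨Vx (cs n m s A), inferInstance, Gr (cs n m s A) 0, Gr (cs n m s A) (tc n m s d),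
    ?_, ?_, ?_, ⟨?_⟩, ?_⟩
  · refine bound k K n m s ℓ n₁ n₂ _ hk hK hℓ2 hs hn1 hn2 hn hm ((card_Vx _).trans (le_of_eq ?_))
    have hcA : Fintype.card (A × A) = 2 ^ s * 2 ^ s := by
      rw [Fintype.card_prod]
      congr 1 <;> exact ZMod.card _
    rw [card_Cc, card_Lc, hcA]
  · refine degree_le fun u => ?_
    rw [h0]
    exact degc h2z 0 u
  · exact degree_le fun u => degc h2z d u
  · intro φ
    have h0' : Deg2 (cs n m s A) 0 := by
      rw [h0]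
      exact deg2c hs1 h2s (two_pow_ne s hs1) 0
    obtain ⟨a, ha⟩ := solution_of_iso h0' (zero_mem' n m s)
      (deg2c hs1 h2s (two_pow_ne s hs1) d) hτ rfl φ
    exact no_solution h2s hd0 a fun l => (ha l).2
  have : Finite (XX (A := A) (sb (N := n + 1) (M := m + 1)) tb) := Subtype.finite
  have : Fintype (XX (A := A) (sb (N := n + 1) (M := m + 1)) tb) := Fintype.ofFinite _
  obtain ⟨e, he⟩ : ∃ e, Fintype.card (XX (A := A) (sb (N := n + 1) (M := m + 1)) tb) = 2 ^ e := by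
    have h1 := AddSubgroup.card_addSubgroup_dvd_card
      (XX (A := A) (sb (N := n + 1) (M := m + 1)) tb)
    have h2 : Nat.card (Cb (n + 1) (m + 1) → Eb (n + 1) (m + 1) → A) =
        2 ^ (s * Nat.card (Eb (n + 1) (m + 1)) * Nat.card (Cb (n + 1) (m + 1))) := by
      rw [Nat.card_fun, Nat.card_fun, pow_mul, pow_mul]
      congr 2
      exact Nat.card_zmod _
    rw [h2, Nat.dvd_prime_pow Nat.prime_two] at h1
    obtain ⟨n, -, h4⟩ := h1
    exact ⟨n, by rw [← Nat.card_eq_fintype_card]; exact h4⟩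
  refine imEquivAll (A := (ad K hKm hKn d h2s).act) (ad K hKm hKn d h2s).torsor he ?_ ?_ ?_ ?_
  · show 4 * (1 * k) ≤ K
    omega
  · show 1 + 1 ≤ K
    omega
  · intro F _ _ W₀ M₀ hW hM₀
    have hW' : W₀.card ≤ 1 * k := hW
    obtain ⟨d', D, hD1, hD2, hD3⟩ := exists_des (K := F) 2 ℓ
    have e1 : ns D false = n₁ := by omega
    have e2 : ns D true = n₂ := by omega
    refine hasPM D (K := K) (by omega) (by omega) hKm (by omega) _ ?_ W₀ (by omega) M₀ hM₀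
      (r := 1 * (2 * k)) (by omega)
    rw [sum_τb, e1, e2, hn1, hd]
    push_cast
    ring
  · intro F _ _ W₀ M₀ hW hM₀
    have hW' : W₀.card ≤ 1 * k := hW
    exact hasPM0 (K := K) hKm hKn F W₀ (by omega) M₀ hM₀

end Pool.Agent.K4H90.Cub
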