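import Pool.Agent.K4H90.Cub.Design

/-!
# From a design for `d` observers to one for `2 d + 1`
-/

set_option autoImplicit false
set_option linter.unusedSectionVars false

namespace Pool.Agent.K4H90.Cub

open Finset

section defs

variable {K : Type} [Field K] {d : ℕ} (D : Des K d) {p : ℕ}

/-- The roles in a partial matching. -/
def rz (z : ZMod (p + 1)) : Option (ZMod (p + 1)) → Option (Bool × Option (ZMod (p + 1)))
  | none => some (true, some z)
  | some y => if y = z then some (false, none) else none

/-- The orientation of a copy. -/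
def tz : Option (ZMod (p + 1)) → Bool
  | none => true
  | some _ => false

theorem rz_val (z : ZMod (p + 1)) : Val tz (rz z) := by
  intro c b c' h
  rcases c with _ | y
  · have h1 : (b, c') = (true, some z) := (Option.some.inj h).symm
    obtain ⟨rfl, rfl⟩ := Prod.mk.inj h1
    refine ⟨?_, Option.some_ne_none _, rfl⟩
    show (if z = z then _ else _) = _
    rw [if_pos rfl]
    rfl
  · by_cases h1 : y = z
    · subst h1
      have h2 : rz y (some y) = some (false, none) := if_pos rfl
      rw [h2] at h
      obtain ⟨rfl, rfl⟩ := Prod.mk.inj (Option.some.inj h)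
      exact ⟨rfl, (Option.some_ne_none _).symm, rfl⟩
    · have h2 : rz z (some y) = none := if_neg h1
      rw [h2] at h
      cases h

/-- The roles in a perfect matching. -/
def pz (z w : ZMod (p + 1)) :
    Bool × Option (ZMod (p + 1)) → Bool × (Bool × Option (ZMod (p + 1)))
  | (false, none) => (true, (false, some z))
  | (false, some y) => if y = z then (false, (false, none)) else (false, (true, some (y + w - z)))
  | (true, none) => (true, (true, some w))
  | (true, some y) => if y = w then (false, (true, none)) else (true, (false, some (y - w + z)))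

/-- The orientation of a copy. -/
def tq (c : Bool × Option (ZMod (p + 1))) : Bool := xor c.1 (tz c.2)

theorem pz_val (z w : ZMod (p + 1)) : Val tq (fun c => some (pz z w c)) := by
  intro c b c' h
  have h0 : pz z w c = (b, c') := Option.some.inj h
  rcases c with ⟨s, _ | y⟩
  · cases s with
    | false =>
      obtain ⟨rfl, rfl⟩ := Prod.mk.inj h0
      refine ⟨?_, by simp, rfl⟩
      show some (if z = z then _ else _) = _
      rw [if_pos rfl]
      rfl
    | true =>
      obtain ⟨rfl, rfl⟩ := Prod.mk.inj h0
      refine ⟨?_, by simp, rfl⟩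
      show some (if w = w then _ else _) = _
      rw [if_pos rfl]
      rfl
  · cases s with
    | false =>
      by_cases h1 : y = z
      · subst h1
        have h2 : pz y w (false, some y) = (false, (false, none)) := if_pos rfl
        rw [h2] at h0
        obtain ⟨rfl, rfl⟩ := Prod.mk.inj h0
        exact ⟨rfl, by simp, rfl⟩
      · have h2 : pz z w (false, some y) = (false, (true, some (y + w - z))) := if_neg h1
        rw [h2] at h0
        obtain ⟨rfl, rfl⟩ := Prod.mk.inj h0
        refine ⟨?_, by simp, rfl⟩
        show some (if y + w - z = w then _ else _) = _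
        rw [if_neg]
        · have h3 : y + w - z - w + z = y := by ring
          rw [h3]
          rfl
        · intro h3
          apply h1
          linear_combination h3
    | true =>
      by_cases h1 : y = w
      · subst h1
        have h2 : pz z y (true, some y) = (false, (true, none)) := if_pos rfl
        rw [h2] at h0
        obtain ⟨rfl, rfl⟩ := Prod.mk.inj h0
        exact ⟨rfl, by simp, rfl⟩
      · have h2 : pz z w (true, some y) = (true, (false, some (y - w + z))) := if_neg h1
        rw [h2] at h0
        obtain ⟨rfl, rfl⟩ := Prod.mk.inj h0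
        refine ⟨?_, by simp, rfl⟩
        show some (if y - w + z = z then _ else _) = _
        rw [if_neg]
        · have h3 : y - w + z + w - z = y := by ring
          rw [h3]
          rfl
        · intro h3
          apply h1
          linear_combination h3

/-- The perfect matching for total roles. -/
def gt {C : Type} [DecidableEq C] (ρ : C → Bool × C) (a : C → D.I) (j : C → D.J) :
    C × D.N → C × D.N := fun u =>
  (pr (ρ u.1).1 u.1 (ρ u.1).2 (D.n (j (pr (ρ u.1).1 u.1 (ρ u.1).2 false)) ((ρ u.1).1, u.2)).1,
    (D.n (j (pr (ρ u.1).1 u.1 (ρ u.1).2 false)) ((ρ u.1).1, u.2)).2)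

theorem gg_gt {C : Type} [DecidableEq C] (ρ : C → Bool × C) (a : C → D.I) (j : C → D.J)
    (u : C × D.N) : gg D (fun c => some (ρ c)) a j u = some (gt D ρ a j u) := rfl

/-- Two families side by side. -/
def tg {C I : Type} (a a' : C → I) : Bool × C → I := fun u => if u.1 = true then a' u.2 else a u.2

theorem sum_tg {C I : Type} [Fintype C] [DecidableEq C] [Fintype I] (f : (Bool × C → I) → K) :
    ∑ a, f a = ∑ a : C → I, ∑ a' : C → I, f (tg a a') := by
  rw [← Fintype.sum_prod_type']
  refine Fintype.sum_equiv (⟨fun a => (fun c => a (false, c), fun c => a (true, c)),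
    fun x => tg x.1 x.2, ?_, ?_⟩ : (Bool × C → I) ≃ (C → I) × (C → I)) _ _ ?_
  · intro a
    funext u
    obtain ⟨b, c⟩ := u
    cases b <;> rfl
  · intro x
    rfl
  · intro a
    show f a = f (tg (fun c => a (false, c)) (fun c => a (true, c)))
    congr 1
    funext u
    obtain ⟨b, c⟩ := u
    cases b <;> rfl

/-- The roles of two partial matchings side by side. -/
def rw2 (z w : ZMod (p + 1)) :
    Bool × Option (ZMod (p + 1)) → Option (Bool × (Bool × Option (ZMod (p + 1))))
  | (false, c) => (rz z c).map fun r => (r.1, (false, r.2))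
  | (true, c) => (rz w c).map fun r => (r.1, (true, r.2))

theorem rw2_val (z w : ZMod (p + 1)) : Val tq (rw2 z w) := by
  intro c b c' h
  obtain ⟨s, c⟩ := c
  cases s with
  | false =>
    have h1 : (rz z c).map (fun r => (r.1, ((false : Bool), r.2))) = some (b, c') := h
    rw [Option.map_eq_some_iff] at h1
    obtain ⟨⟨s', e⟩, h2, h3⟩ := h1
    obtain ⟨rfl, rfl⟩ := Prod.mk.inj h3
    obtain ⟨h4, h5, h6⟩ := rz_val z _ _ _ h2
    refine ⟨?_, ?_, ?_⟩
    · show (rz z e).map (fun r => (r.1, ((false : Bool), r.2))) = _
      rw [h4]
      rfl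
    · intro h7
      exact h5 (Prod.mk.inj h7).2
    · show xor false (tz e) = !(xor false (tz c))
      rw [h6]
      cases tz c <;> rfl
  | true =>
    have h1 : (rz w c).map (fun r => (r.1, ((true : Bool), r.2))) = some (b, c') := h
    rw [Option.map_eq_some_iff] at h1
    obtain ⟨⟨s', e⟩, h2, h3⟩ := h1
    obtain ⟨rfl, rfl⟩ := Prod.mk.inj h3
    obtain ⟨h4, h5, h6⟩ := rz_val w _ _ _ h2
    refine ⟨?_, ?_, ?_⟩
    · show (rz w e).map (fun r => (r.1, ((true : Bool), r.2))) = _
      rw [h4]
      rfl
    · intro h7
      exact h5 (Prod.mk.inj h7).2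
    · show xor true (tz e) = !(xor true (tz c))
      rw [h6]
      cases tz c <;> rfl

/-- Reassociation. -/
def asc {C N : Type} (u : Bool × (C × N)) : (Bool × C) × N := ((u.1, u.2.1), u.2.2)

/-- Reassociation. -/
def csa {C N : Type} (u : (Bool × C) × N) : Bool × (C × N) := (u.1.1, (u.1.2, u.2))

theorem gg_rw2 (z w : ZMod (p + 1)) (a a' : Option (ZMod (p + 1)) → D.I)
    (j j' : Option (ZMod (p + 1)) → D.J) (u : Bool × (Option (ZMod (p + 1)) × D.N)) :
    (gg D (rw2 z w) (tg a a') (tg j j') (asc u)).map csa =
      mm (fun (i : ZMod (p + 1) × (Option (ZMod (p + 1)) → D.I) × (Option (ZMod (p + 1)) → D.J)) =>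
        gg D (rz i.1) i.2.1 i.2.2) (z, a, j) (w, a', j') u := by
  obtain ⟨b, c, x⟩ := u
  cases b with
  | false =>
    show _ = (gg D (rz z) a j (c, x)).map fun y => (false, y)
    rcases h : rz z c with _ | ⟨s, e⟩
    · have h1 : rw2 z w (false, c) = none := by
        show (rz z c).map _ = none
        rw [h]
        rfl
      rw [gg_none D h]
      show (gg D (rw2 z w) (tg a a') (tg j j') ((false, c), x)).map csa = _
      rw [gg_none D h1, Option.map_map, Option.map_map]
      rfl
    · have h1 : rw2 z w (false, c) = some (s, (false, e)) := by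
        show (rz z c).map _ = _
        rw [h]
        rfl
      rw [gg_some D h]
      show (gg D (rw2 z w) (tg a a') (tg j j') ((false, c), x)).map csa = _
      rw [gg_some D h1]
      have h2 : ∀ t, pr s ((false : Bool), c) (false, e) t = (false, pr s c e t) := by
        intro t
        unfold pr
        by_cases h3 : t = s
        · rw [if_pos h3, if_pos h3]
        · rw [if_neg h3, if_neg h3]
      simp only [h2]
      rfl
  | true =>
    show _ = (gg D (rz w) a' j' (c, x)).map fun y => (true, y)
    rcases h : rz w c with _ | ⟨s, e⟩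
    · have h1 : rw2 z w (true, c) = none := by
        show (rz w c).map _ = none
        rw [h]
        rfl
      rw [gg_none D h]
      show (gg D (rw2 z w) (tg a a') (tg j j') ((true, c), x)).map csa = _
      rw [gg_none D h1, Option.map_map, Option.map_map]
      rfl
    · have h1 : rw2 z w (true, c) = some (s, (true, e)) := by
        show (rz w c).map _ = _
        rw [h]
        rfl
      rw [gg_some D h]
      show (gg D (rw2 z w) (tg a a') (tg j j') ((true, c), x)).map csa = _
      rw [gg_some D h1]
      have h2 : ∀ t, pr s ((true : Bool), c) (true, e) t = (true, pr s c e t) := by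
        intro t
        unfold pr
        by_cases h3 : t = s
        · rw [if_pos h3, if_pos h3]
        · rw [if_neg h3, if_neg h3]
      simp only [h2]
      rfl

end defs

section step

variable {K : Type} [Field K] {p : ℕ} [Fact p.Prime] [CharP K p] {d : ℕ} (D : Des K d)

theorem card_ne (y : ZMod (p + 1)) : (((univ : Finset (ZMod (p + 1))).erase y).card : K) = 0 := by
  rw [card_erase_of_mem (mem_univ _), card_univ, ZMod.card, Nat.add_sub_cancel,
    CharP.cast_eq_zero]

theorem step_P (T : Finset (Option (ZMod (p + 1)) × D.N)) (hT : T.card ≤ 2 * d + 1)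
    (F : (Option (ZMod (p + 1)) × D.N → Option (Option (ZMod (p + 1)) × D.N)) → K)
    (hF : Dep T F) (hF0 : ∀ g, (∀ x ∈ T, g x ≠ none) → F g = 0) :
    ∑ z : ZMod (p + 1), VV D (rz z) F = 0 := by
  classical
  let L : Finset (Option (ZMod (p + 1))) :=
    univ.filter fun c => (T.filter fun u => u.1 = c).card ≤ d
  have h1 : ∀ z, VV D (rz z) F = VV D (rz z) (fun g => F g * ok D T L g) := fun z =>
    VV_ok D hF L fun c hc => (mem_filter.1 hc).2
  have hF' : Dep T (fun g => F g * ok D T L g) := by
    intro g g' h
    dsimp only
    rw [hF g g' h, ok_dep D T L g g' h]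
  have h2 : ∀ g, (∀ u ∈ T, u.1 ∉ L → g u ≠ none) → F g * ok D T L g = 0 := by
    intro g hg
    by_cases h3 : ∀ u ∈ T, u.1 ∈ L → g u ≠ none
    · rw [hF0, zero_mul]
      intro u hu
      by_cases h4 : u.1 ∈ L
      · exact h3 u hu h4
      · exact hg u hu h4
    · unfold ok
      rw [if_neg h3, mul_zero]
  simp only [h1]
  by_cases h3 : ∃ c, c ∉ L
  · obtain ⟨c, hc⟩ := h3
    have hc' : d < (T.filter fun u => u.1 = c).card := by
      by_contra h4
      exact hc (mem_filter.2 ⟨mem_univ _, by omega⟩)
    -- `c` is the only heavy copy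
    have h4 : ∀ e, e ≠ c → e ∈ L := by
      intro e he
      refine mem_filter.2 ⟨mem_univ _, ?_⟩
      have h5 : Disjoint (T.filter fun u => u.1 = c) (T.filter fun u => u.1 = e) := by
        rw [disjoint_left]
        intro u hu hu'
        exact he ((mem_filter.1 hu').2.symm.trans (mem_filter.1 hu).2)
      have h6 := card_union_of_disjoint h5
      have h7 : ((T.filter fun u => u.1 = c) ∪ T.filter fun u => u.1 = e).card ≤ T.card :=
        card_le_card (union_subset (filter_subset _ _) (filter_subset _ _))
      omega
    have h5 : ∀ z, rz z c ≠ none → VV D (rz z) (fun g => F g * ok D T L g) = 0 := by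
      intro z hz
      unfold VV
      refine Finset.sum_eq_zero fun a _ => Finset.sum_eq_zero fun j _ => ?_
      refine h2 _ ?_
      rintro ⟨e, x⟩ _ he
      have h6 : e = c := by
        by_contra h7
        exact he (h4 e h7)
      subst h6
      obtain ⟨⟨b, e'⟩, h7⟩ := Option.ne_none_iff_exists'.1 hz
      rw [gg_some D h7]
      exact Option.some_ne_none _
    rcases c with _ | y
    · exact Finset.sum_eq_zero fun z _ => h5 z (Option.some_ne_none _)
    · rw [← Finset.add_sum_erase _ _ (mem_univ y), h5 y, zero_add]
      · have h6 : ∀ z ∈ (univ : Finset (ZMod (p + 1))).erase y,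
            VV D (rz z) (fun g => F g * ok D T L g) = VV D np (fun g => F g * ok D T L g) := by
          intro z hz
          have hz' := ne_of_mem_erase hz
          have h7 : rz z (some z) = some (false, none) := if_pos rfl
          rw [VV_rem D (rz_val z) h7 (T := T) ?_ hF']
          · congr 1
            funext e
            unfold rem np
            rcases e with _ | e
            · rw [if_pos (Or.inr rfl)]
            · by_cases h8 : e = z
              · rw [if_pos (Or.inl (by rw [h8]))]
              · rw [if_neg]
                · exact if_neg h8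
                · rintro (h9 | h9)
                  · exact h8 (Option.some.inj h9)
                  · cases h9
          · have h8 : Disjoint (T.filter fun u => u.1 = some y) (part D T (some z) none) := by
              rw [disjoint_left]
              intro u hu hu'
              rcases (mem_filter.1 hu').2 with h9 | h9
              · exact hz' (Option.some.inj (h9.symm.trans (mem_filter.1 hu).2))
              · have h10 := h9.symm.trans (mem_filter.1 hu).2
                cases h10
            have h9 := card_union_of_disjoint h8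
            have h10 : ((T.filter fun u => u.1 = some y) ∪ part D T (some z) none).card ≤ T.card :=
              card_le_card (union_subset (filter_subset _ _) (filter_subset _ _))
            omega
        rw [Finset.sum_congr rfl h6, Finset.sum_const, nsmul_eq_mul, card_ne, zero_mul]
      · have h6 : rz y (some y) = some (false, none) := if_pos rfl
        rw [h6]
        exact Option.some_ne_none _
  · push Not at h3
    refine Finset.sum_eq_zero fun z _ => ?_
    unfold VV
    refine Finset.sum_eq_zero fun a _ => Finset.sum_eq_zero fun j _ => ?_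
    exact h2 _ fun u _ hu => absurd (h3 _) hu

theorem ex_pz (F : ((Bool × Option (ZMod (p + 1))) × D.N →
    Option ((Bool × Option (ZMod (p + 1))) × D.N)) → K) (z w : ZMod (p + 1)) :
    ∑ c, ex D F (fun c => some (pz z w c)) c = ∑ c, ex D F (rw2 z w) c +
      ∑ y ∈ univ.erase z, dl D F (false, some y) (true, some (y + w - z)) := by
  have h1 : ∀ ρ : Bool × Option (ZMod (p + 1)) → Option (Bool × (Bool × Option (ZMod (p + 1)))),
      ∑ c, ex D F ρ c = (ex D F ρ (true, none) + ∑ y, ex D F ρ (true, some y)) +
        (ex D F ρ (false, none) + ∑ y, ex D F ρ (false, some y)) := by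
    intro ρ
    rw [Fintype.sum_prod_type, Fintype.sum_bool, Fintype.sum_option, Fintype.sum_option]
  rw [h1, h1]
  have e1 : ex D F (fun c => some (pz z w c)) (true, none) = 0 := rfl
  have e2 : ex D F (fun c => some (pz z w c)) (false, none) = 0 := rfl
  have e3 : ex D F (rw2 z w) (true, none) = 0 := rfl
  have e4 : ex D F (rw2 z w) (false, none) = 0 := rfl
  have e5 : ∀ y, ex D F (fun c => some (pz z w c)) (true, some y) =
      ex D F (rw2 z w) (true, some y) := by
    intro y
    unfold ex
    by_cases h : y = w
    · subst h
      have h2 : pz z y (true, some y) = (false, (true, none)) := if_pos rfl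
      have h3 : rw2 z y (true, some y) = some (false, (true, none)) := by
        show (rz y (some y)).map _ = _
        have h4 : rz y (some y) = some (false, none) := if_pos rfl
        rw [h4]
        rfl
      simp only [h2, h3]
    · have h2 : pz z w (true, some y) = (true, (false, some (y - w + z))) := if_neg h
      have h3 : rw2 z w (true, some y) = none := by
        show (rz w (some y)).map _ = _
        have h4 : rz w (some y) = none := if_neg h
        rw [h4]
        rfl
      simp only [h2, h3]
  have e6 : ∀ y ∈ (univ : Finset (ZMod (p + 1))).erase z,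
      ex D F (fun c => some (pz z w c)) (false, some y) =
      dl D F (false, some y) (true, some (y + w - z)) := by
    intro y hy
    unfold ex
    have h2 : pz z w (false, some y) = (false, (true, some (y + w - z))) :=
      if_neg (ne_of_mem_erase hy)
    simp only [h2]
  have e7 : ∀ y ∈ (univ : Finset (ZMod (p + 1))).erase z,
      ex D F (rw2 z w) (false, some y) = 0 := by
    intro y hy
    unfold ex
    have h3 : rw2 z w (false, some y) = none := by
      show (rz z (some y)).map _ = _
      have h4 : rz z (some y) = none := if_neg (ne_of_mem_erase hy)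
      rw [h4]
      rfl
    simp only [h3]
  have e8 : ex D F (fun c => some (pz z w c)) (false, some z) =
      ex D F (rw2 z w) (false, some z) := by
    unfold ex
    have h2 : pz z w (false, some z) = (false, (false, none)) := if_pos rfl
    have h3 : rw2 z w (false, some z) = some (false, (false, none)) := by
      show (rz z (some z)).map _ = _
      have h4 : rz z (some z) = some (false, none) := if_pos rfl
      rw [h4]
      rfl
    simp only [h2, h3]
  rw [e1, e2, e3, e4, Finset.sum_congr rfl fun y _ => e5 y,
    ← Finset.add_sum_erase _ (fun y => ex D F (fun c => some (pz z w c)) (false, some y))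
      (mem_univ z), ← Finset.add_sum_erase _ (fun y => ex D F (rw2 z w) (false, some y))
      (mem_univ z), e8, Finset.sum_congr rfl e6, Finset.sum_eq_zero e7]
  ring

theorem step_Q (T : Finset ((Bool × Option (ZMod (p + 1))) × D.N)) (hT : T.card ≤ 2 * d + 1)
    (F : ((Bool × Option (ZMod (p + 1))) × D.N →
      Option ((Bool × Option (ZMod (p + 1))) × D.N)) → K) (hF : Dep T F) :
    ∑ z : ZMod (p + 1), ∑ w : ZMod (p + 1), VV D (fun c => some (pz z w c)) F =
      ∑ z : ZMod (p + 1), ∑ w : ZMod (p + 1), VV D (rw2 z w) F := by
  have h1 : ∀ z w : ZMod (p + 1), VV D (fun c => some (pz z w c)) F = VV D (rw2 z w) F +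
      ∑ y ∈ univ.erase z, dl D F (false, some y) (true, some (y + w - z)) := by
    intro z w
    rw [VV_add D (pz_val z w) hT hF, VV_add D (rw2_val z w) hT hF, ex_pz]
    ring
  simp only [h1, Finset.sum_add_distrib]
  have h2 : ∀ z : ZMod (p + 1), ∑ w : ZMod (p + 1), ∑ y ∈ univ.erase z,
      dl D F (false, some y) (true, some (y + w - z)) =
      ∑ y ∈ univ.erase z, ∑ w : ZMod (p + 1), dl D F (false, some y) (true, some w) := by
    intro z
    rw [Finset.sum_comm]
    refine Finset.sum_congr rfl fun y _ => ?_
    refine Fintype.sum_equiv ⟨fun w => y + w - z, fun w => w - y + z, fun w => by ring,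
      fun w => by ring⟩ _ _ fun w => rfl
  rw [Finset.sum_congr rfl fun z _ => h2 z]
  have h3 : ∑ z : ZMod (p + 1), ∑ y ∈ univ.erase z,
      ∑ w : ZMod (p + 1), dl D F (false, some y) (true, some w) = 0 := by
    have h4 : ∀ z : ZMod (p + 1), ∑ y ∈ univ.erase z,
        ∑ w : ZMod (p + 1), dl D F (false, some y) (true, some w) =
        ∑ y, (if z ≠ y then ∑ w : ZMod (p + 1), dl D F (false, some y) (true, some w) else 0) := by
      intro z
      rw [← Finset.sum_filter]
      refine Finset.sum_congr ?_ fun _ _ => rfl
      ext y
      simp [eq_comm]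
    rw [Finset.sum_congr rfl fun z _ => h4 z, Finset.sum_comm]
    refine Finset.sum_eq_zero fun y _ => ?_
    rw [← Finset.sum_filter, Finset.sum_const, nsmul_eq_mul]
    have h5 : (univ.filter fun z : ZMod (p + 1) => z ≠ y) = univ.erase y := by
      ext z
      simp
    rw [h5, card_ne, zero_mul]
  rw [h3, add_zero]

/-- The next design. -/
def step (p : ℕ) [Fact p.Prime] [CharP K p] (D : Des K d) : Des K (2 * d + 1) where
  N := Option (ZMod (p + 1)) × D.N
  fN := inferInstance
  dN := inferInstance
  sg u := xor (tz u.1) (D.sg u.2)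
  I := ZMod (p + 1) × (Option (ZMod (p + 1)) → D.I) × (Option (ZMod (p + 1)) → D.J)
  fI := inferInstance
  J := (ZMod (p + 1) × ZMod (p + 1)) × (Bool × Option (ZMod (p + 1)) → D.I) ×
    (Bool × Option (ZMod (p + 1)) → D.J)
  fJ := inferInstance
  m i := gg D (rz i.1) i.2.1 i.2.2
  n j u := csa (gt D (pz j.1.1 j.1.2) j.2.1 j.2.2 (asc u))
  cI := by
    rw [Fintype.card_prod, Fintype.card_prod, Fintype.card_fun, Fintype.card_fun, ZMod.card,
      Nat.cast_mul, Nat.cast_mul, Nat.cast_pow, Nat.cast_pow, D.cI, D.cJ]
    push_cast
    rw [CharP.cast_eq_zero]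
    ring
  cJ := by
    rw [Fintype.card_prod, Fintype.card_prod, Fintype.card_prod, Fintype.card_fun,
      Fintype.card_fun, ZMod.card, Nat.cast_mul, Nat.cast_mul, Nat.cast_mul, Nat.cast_pow,
      Nat.cast_pow, D.cI, D.cJ]
    push_cast
    rw [CharP.cast_eq_zero]
    ring
  m_symm i u v h := gg_symm D (rz_val i.1) i.2.1 i.2.2 u v h
  m_sg i u v h := gg_sg D (rz_val i.1) i.2.1 i.2.2 u v h
  n_symm j u := by
    have h1 := gg_symm D (pz_val j.1.1 j.1.2) j.2.1 j.2.2 (asc u) _ (gg_gt D _ _ _ _)
    rw [gg_gt] at h1
    have h2 := Option.some.inj h1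
    show csa (gt D (pz j.1.1 j.1.2) j.2.1 j.2.2 (gt D (pz j.1.1 j.1.2) j.2.1 j.2.2 (asc u))) = u
    rw [h2]
    rfl
  n_sg j u := by
    have h1 := gg_sg D (pz_val j.1.1 j.1.2) j.2.1 j.2.2 (asc u) _ (gg_gt D _ _ _ _)
    revert h1
    generalize gt D (pz j.1.1 j.1.2) j.2.1 j.2.2 (asc u) = v
    obtain ⟨⟨b, c⟩, x⟩ := v
    obtain ⟨b', c', x'⟩ := u
    show xor (xor b (tz c)) (D.sg x) = !(xor (xor b' (tz c')) (D.sg x')) →
      xor b (xor (tz c) (D.sg x)) = !(xor b' (xor (tz c') (D.sg x')))
    rw [Bool.xor_assoc, Bool.xor_assoc]
    exact id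
  P T hT F hF hF0 := by
    rw [Fintype.sum_prod_type]
    have h1 := step_P D T hT F hF hF0
    rw [← h1]
    refine Finset.sum_congr rfl fun z _ => ?_
    rw [Fintype.sum_prod_type]
    rfl
  Q T hT F hF := by
    let F' : ((Bool × Option (ZMod (p + 1))) × D.N →
      Option ((Bool × Option (ZMod (p + 1))) × D.N)) → K := fun g => F fun u => (g (asc u)).map csa
    have h1 := step_Q D (T.map ⟨asc, fun u v h => by
      obtain ⟨b, c, x⟩ := u
      obtain ⟨b', c', x'⟩ := v
      have h2 := Prod.mk.inj h
      have h3 := Prod.mk.inj h2.1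
      rw [show b = b' from h3.1, show c = c' from h3.2, show x = x' from h2.2]⟩)
      (by rw [card_map]; exact hT) F' (by
        intro g g' h
        refine hF _ _ fun u hu => ?_
        exact congrArg _ (h _ (mem_map_of_mem _ hu)))
    have h2 : ∑ j : (ZMod (p + 1) × ZMod (p + 1)) × (Bool × Option (ZMod (p + 1)) → D.I) ×
        (Bool × Option (ZMod (p + 1)) → D.J),
        F (fun x => some (csa (gt D (pz j.1.1 j.1.2) j.2.1 j.2.2 (asc x)))) =
        ∑ z : ZMod (p + 1), ∑ w : ZMod (p + 1), VV D (fun c => some (pz z w c)) F' := by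
      rw [Fintype.sum_prod_type, Fintype.sum_prod_type]
      refine Finset.sum_congr rfl fun z _ => Finset.sum_congr rfl fun w _ => ?_
      rw [Fintype.sum_prod_type]
      rfl
    have h3 : ∑ a : ZMod (p + 1) × (Option (ZMod (p + 1)) → D.I) × (Option (ZMod (p + 1)) → D.J),
        ∑ b : ZMod (p + 1) × (Option (ZMod (p + 1)) → D.I) × (Option (ZMod (p + 1)) → D.J),
        F (mm (fun i => gg D (rz i.1) i.2.1 i.2.2) a b) =
        ∑ z : ZMod (p + 1), ∑ w : ZMod (p + 1), VV D (rw2 z w) F' := by
      rw [Fintype.sum_prod_type]
      refine Finset.sum_congr rfl fun z _ => ?_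
      have h4 : ∀ w, VV D (rw2 z w) F' = ∑ a : Option (ZMod (p + 1)) → D.I,
          ∑ j : Option (ZMod (p + 1)) → D.J, ∑ a' : Option (ZMod (p + 1)) → D.I,
          ∑ j' : Option (ZMod (p + 1)) → D.J,
          F (mm (fun (i : ZMod (p + 1) × (Option (ZMod (p + 1)) → D.I) ×
            (Option (ZMod (p + 1)) → D.J)) => gg D (rz i.1) i.2.1 i.2.2) (z, a, j) (w, a', j')) := by
        intro w
        unfold VV
        rw [sum_tg]
        refine Finset.sum_congr rfl fun a _ => ?_
        conv_rhs => rw [Finset.sum_comm]
        refine Finset.sum_congr rfl fun a' _ => ?_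
        rw [sum_tg]
        refine Finset.sum_congr rfl fun j _ => Finset.sum_congr rfl fun j' _ => ?_
        show F (fun u => (gg D (rw2 z w) (tg a a') (tg j j') (asc u)).map csa) = _
        congr 1
        funext u
        exact gg_rw2 D z w a a' j j' u
      have h5 : ∀ aj : (Option (ZMod (p + 1)) → D.I) × (Option (ZMod (p + 1)) → D.J),
          ∑ b : ZMod (p + 1) × (Option (ZMod (p + 1)) → D.I) × (Option (ZMod (p + 1)) → D.J),
          F (mm (fun i => gg D (rz i.1) i.2.1 i.2.2) (z, aj) b) = ∑ w : ZMod (p + 1),
          ∑ bj : (Option (ZMod (p + 1)) → D.I) × (Option (ZMod (p + 1)) → D.J),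
          F (mm (fun i => gg D (rz i.1) i.2.1 i.2.2) (z, aj) (w, bj)) := fun aj =>
        Fintype.sum_prod_type _
      rw [Finset.sum_congr rfl fun aj _ => h5 aj, Finset.sum_comm]
      refine Finset.sum_congr rfl fun w _ => ?_
      rw [h4 w, Fintype.sum_prod_type]
      refine Finset.sum_congr rfl fun a _ => Finset.sum_congr rfl fun j _ => ?_
      rw [Fintype.sum_prod_type]
    rw [h2, h3]
    exact h1

end step

end Pool.Agent.K4H90.Cub
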